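import Pool.Agent.Helper1.UB.LW
import Pool.Agent.Helper24.LW.Transport
import Pool.Agent.Helper28.LW.Reduce

/-! MP_be0fb5, universal bound: assembly with parameters (S2). -/

set_option autoImplicit false

namespace Pool.Agent.Helper1.UB.LW

open Matrix Pool.Agent.Helper12.LW

/-- the assembly, with the reduction as a hypothesis -/
theorem universal_of (hred : ∀ (A : Matrix (Fin 3) (Fin 3) ℝ), A.PosDef → ∀ ω : ℝ, 0 < ω →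
      (∀ y : Fin 3 → ℤ, y ≠ 0 → ω ≤ qf A (toR y)) →
      ∃ (U : Matrix (Fin 3) (Fin 3) ℤ) (α β γ : ℝ), IsUnit U.det ∧ InH α β γ ∧
        ∀ v : Fin 3 → ℝ, ω * qf (Mm α β γ) v ≤ qf A ((U.map (Int.cast : ℤ → ℝ))ᵀ *ᵥ v))
    (ω : ℝ) (hω : 0 < ω)
    (cert : ∀ α β γ : ℝ, InH α β γ → ∀ K, LFree K → ¬ PosAt K (Mm α β γ) (3 / ω))
    (K : Set (Fin 3 → ℝ)) (hK : LFree K) :
    ∃ u : Fin 3 → ℤ, u ≠ 0 ∧ ∀ x ∈ K, ∀ x' ∈ K, (∑ i, (x i - x' i) * (u i : ℝ)) ^ 2 ≤ ω := by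
  by_contra hcon
  push Not at hcon
  obtain ⟨A, hA, hw, hP⟩ := loewner K hK
  obtain ⟨U, α, β, γ, hU, hH, hdom⟩ := hred A hA ω hω (by
    intro y hy
    obtain ⟨x, hx, x', hx', hlt⟩ := hcon y hy
    have h1 := hw (toR y) x hx x' hx'
    have h2 : toR y ⬝ᵥ (x - x') = ∑ i, (x i - x' i) * (y i : ℝ) := by
      simp only [dotProduct, toR, Pi.sub_apply]
      exact Finset.sum_congr rfl (fun i _ => mul_comm _ _)
    rw [h2] at h1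
    exact (hlt.trans_le h1).le)
  obtain ⟨K', hK', hP'⟩ := Pool.Agent.Helper24.LW.transport K hK A (Mm α β γ) 3 ω hω hP U hU hdom
  exact cert α β γ hH K' hK' hP'

/-- **S2**: the assembly -/
theorem universal (ω : ℝ) (hω : 0 < ω)
    (cert : ∀ α β γ : ℝ, InH α β γ → ∀ K, LFree K → ¬ PosAt K (Mm α β γ) (3 / ω))
    (K : Set (Fin 3 → ℝ)) (hK : LFree K) :
    ∃ u : Fin 3 → ℤ, u ≠ 0 ∧ ∀ x ∈ K, ∀ x' ∈ K, (∑ i, (x i - x' i) * (u i : ℝ)) ^ 2 ≤ ω :=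
  universal_of (fun A hA ω hω h => Pool.Agent.Helper28.LW.reduce A hA ω hω h) ω hω cert K hK

/-- from the squares of the widths to a bound for the lattice width -/
theorem width_of (ω W : ℝ) (hW : 0 ≤ W) (hωW : ω ≤ W ^ 2) (K : Set (Fin 3 → ℝ))
    (h : ∃ u : Fin 3 → ℤ, u ≠ 0 ∧ ∀ x ∈ K, ∀ x' ∈ K, (∑ i, (x i - x' i) * (u i : ℝ)) ^ 2 ≤ ω) :
    ∃ u : Fin 3 → ℤ, u ≠ 0 ∧ ∀ x ∈ K, ∀ x' ∈ K, ∑ i, (x i - x' i) * (u i : ℝ) ≤ W := by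
  obtain ⟨u, hu, hx⟩ := h
  refine ⟨u, hu, fun x hxK x' hxK' => ?_⟩
  exact abs_le_of_sq_le_sq' ((hx x hxK x' hxK').trans hωW) hW |>.2

end Pool.Agent.Helper1.UB.LW
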