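import Pool.Agent.Helper84.FL.Labels

/-! MP_be0fb5, universal bound, step (3): for an arbitrary superbase and an arbitrary separation of the lattice
points, some Kuhn chain carries a balanced system of separating vectors. -/

set_option autoImplicit false

namespace Pool.Agent.Helper1.UB

open Pool.Agent.Helper84.FL

/-- the interpolation of a vector valued function on the lattice, along the Kuhn triangulation -/
noncomputable def interp (box : Finset (Fin 3 → ℤ)) (N : (Fin 3 → ℤ) → (Fin 3 → ℝ)) (x : Fin 3 → ℝ) :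
    Fin 3 → ℝ := fun i => ∑ v ∈ box, kuhnPhi v x * N v i

theorem interp_cont (box : Finset (Fin 3 → ℤ)) (N : (Fin 3 → ℤ) → (Fin 3 → ℝ)) :
    Continuous (interp box N) := by
  refine continuous_pi (fun i => ?_)
  refine continuous_finset_sum _ (fun v _ => ?_)
  exact (kuhnPhi_cont v).mul continuous_const

/-- a zero of a continuous map on a box which points outwards on the boundary -/
theorem exists_zero (M : ℝ) (hM : 0 < M) (F : (Fin 3 → ℝ) → (Fin 3 → ℝ)) (hF : Continuous F)
    (h : ∀ x : Fin 3 → ℝ, (∀ i, |x i| ≤ M) → (∃ i, |x i| = M) → 0 < ∑ i, F x i * x i) :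
    ∃ x : Fin 3 → ℝ, (∀ i, |x i| ≤ M) ∧ F x = 0 := by
  have hab : (fun _ : Fin 3 => -M) ≤ (fun _ => M) := by
    intro i
    show -M ≤ M
    linarith
  obtain ⟨x, hx, hfix⟩ := Pool.Agent.Helper52.Brouwer.brouwer_box (fun _ : Fin 3 => -M) (fun _ => M) hab
    (fun x i => max (-M) (min M (x i - F x i)))
    (by
      apply Continuous.continuousOn
      refine continuous_pi (fun i => ?_)
      have h1 : Continuous fun x : Fin 3 → ℝ => F x i := (continuous_apply i).comp hF
      fun_prop)
    (by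
      intro x _
      refine ⟨fun i => le_max_left _ _, fun i => ?_⟩
      exact max_le (by linarith) (min_le_left _ _))
  have hxM : ∀ i, |x i| ≤ M := by
    intro i
    exact abs_le.2 ⟨hx.1 i, hx.2 i⟩
  refine ⟨x, hxM, ?_⟩
  have hfi : ∀ i, max (-M) (min M (x i - F x i)) = x i := fun i => congrFun hfix i
  have hint : ∀ i, |x i| < M → F x i = 0 := by
    intro i hi
    have h1 := hfi i
    rw [abs_lt] at hi
    rcases max_choice (-M) (min M (x i - F x i)) with h2 | h2
    · rw [h2] at h1; linarith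
    · rw [h2] at h1
      rcases min_choice M (x i - F x i) with h3 | h3
      · rw [h3] at h1; linarith
      · rw [h3] at h1; linarith
  have hbd : ∀ i, F x i * x i ≤ 0 := by
    intro i
    by_cases hi : |x i| < M
    · rw [hint i hi, zero_mul]
    · have h0 : |x i| = M := le_antisymm (hxM i) (not_lt.1 hi)
      have h1 := hfi i
      rcases (abs_eq hM.le).1 h0 with h2 | h2
      · -- x i = M
        have h3 : 0 ≤ -F x i := by
          by_contra hcon
          have h4 : min M (x i - F x i) < M := by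
            rw [min_lt_iff]; right; linarith
          have h5 : max (-M) (min M (x i - F x i)) < M := max_lt (by linarith) h4
          rw [h1, h2] at h5
          exact lt_irrefl _ h5
        rw [h2]
        nlinarith
      · have h3 : 0 ≤ F x i := by
          by_contra hcon
          have h4 : -M < min M (x i - F x i) := by
            rw [lt_min_iff]; constructor <;> linarith
          have h5 : -M < max (-M) (min M (x i - F x i)) := lt_max_of_lt_right h4
          rw [h1, h2] at h5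
          exact lt_irrefl _ h5
        rw [h2]
        nlinarith
  by_cases hb : ∃ i, |x i| = M
  · have h1 := h x hxM hb
    have h2 : ∑ i, F x i * x i ≤ 0 := Finset.sum_nonpos (fun i _ => hbd i)
    linarith
  · push Not at hb
    funext i
    exact hint i (lt_of_le_of_ne (hxM i) (hb i))

/-- the vertices of a Kuhn simplex are distinct -/
theorem kv_inj (z : Fin 3 → ℤ) (π : Equiv.Perm (Fin 3)) {a b : ℕ} (ha : a ≤ 3) (hb : b ≤ 3)
    (h : kv z π a = kv z π b) : a = b := by
  by_contra hne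
  wlog hlt : a < b generalizing a b
  · exact this hb ha h.symm (Ne.symm hne) (by omega)
  have h1 := congrFun h (π ⟨a, by omega⟩)
  unfold kv at h1
  rw [Equiv.symm_apply_apply] at h1
  simp only [lt_self_iff_false, if_false, if_pos hlt] at h1
  omega

/-- the balanced chain, in coordinates, with a bound for its position -/
theorem kuhn_zero_b (N : (Fin 3 → ℤ) → (Fin 3 → ℝ)) (M : ℕ) (hM : 0 < M)
    (h : ∀ x : Fin 3 → ℝ, (∀ i, |x i| ≤ M) → (∃ i, |x i| = M) → ∀ v : Fin 3 → ℤ,
      (∀ i, |x i - v i| ≤ 1) → 0 < ∑ i, N v i * x i) :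
    ∃ (z : Fin 3 → ℤ) (π : Equiv.Perm (Fin 3)) (lam : Fin 4 → ℝ), (∀ i, -(M : ℤ) ≤ z i ∧ z i ≤ M) ∧
      (∀ k, 0 ≤ lam k) ∧ 0 < lam 0 ∧ ∀ i, ∑ k : Fin 4, lam k * N (kv z π k) i = 0 := by
  classical
  set box : Finset (Fin 3 → ℤ) := Finset.Icc (fun _ => -(M : ℤ)) (fun _ => (M : ℤ)) with hbox
  have hmem : ∀ v, v ∈ box ↔ ∀ i, -(M : ℤ) ≤ v i ∧ v i ≤ M := by
    intro v
    rw [hbox, Finset.mem_Icc, Pi.le_def, Pi.le_def]
    exact ⟨fun h i => ⟨h.1 i, h.2 i⟩, fun h => ⟨fun i => (h i).1, fun i => (h i).2⟩⟩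
  have hfloor : ∀ x : Fin 3 → ℝ, (∀ i, |x i| ≤ (M : ℝ)) → (fun i => ⌊x i⌋) ∈ box := by
    intro x hx
    rw [hmem]
    intro i
    have a1 := abs_le.1 (hx i)
    constructor
    · rw [Int.le_floor]
      push_cast
      exact a1.1
    · have h3 : ((⌊x i⌋ : ℤ) : ℝ) ≤ ((M : ℤ) : ℝ) := by
        push_cast
        exact (Int.floor_le _).trans a1.2
      exact_mod_cast h3
  have hnear : ∀ (v : Fin 3 → ℤ) (x : Fin 3 → ℝ), 0 < kuhnPhi v x → ∀ i, |x i - v i| ≤ 1 := by
    intro v x hp i
    obtain ⟨t, ht0, ht1, ht⟩ := kuhnPhi_pos hp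
    have := ht i
    rw [abs_le]
    constructor <;> linarith
  obtain ⟨x, hx, hx0⟩ := exists_zero (M : ℝ) (by exact_mod_cast hM) (interp box N) (interp_cont box N)
    (by
      intro x hxM hxb
      have h1 : ∑ i, interp box N x i * x i = ∑ v ∈ box, kuhnPhi v x * ∑ i, N v i * x i := by
        unfold interp
        simp only [Finset.sum_mul, Finset.mul_sum]
        rw [Finset.sum_comm]
        refine Finset.sum_congr rfl (fun v _ => Finset.sum_congr rfl (fun i _ => by ring))
      rw [h1]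
      refine Finset.sum_pos' (fun v _ => ?_) ⟨_, hfloor x hxM, ?_⟩
      · by_cases hp : 0 < kuhnPhi v x
        · exact mul_nonneg hp.le (h x hxM hxb v (hnear v x hp)).le
        · have : kuhnPhi v x = 0 := le_antisymm (not_lt.1 hp) (kuhnPhi_nonneg v x)
          rw [this, zero_mul]
      · have hp := kuhnPhi_floor x
        exact mul_pos hp (h x hxM hxb _ (hnear _ x hp)))
  obtain ⟨π, hπ⟩ := kuhn_chain x
  set z : Fin 3 → ℤ := fun i => ⌊x i⌋ with hz
  have hchain : ∀ v, 0 < kuhnPhi v x → ∃ k : Fin 4, kv z π k = v := by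
    intro v hp
    obtain ⟨t, ht0, ht1, ht⟩ := kuhnPhi_pos hp
    obtain ⟨k, hk, hkv⟩ := hπ t ht0 ht1
    refine ⟨⟨k, by omega⟩, ?_⟩
    rw [show ((⟨k, by omega⟩ : Fin 4) : ℕ) = k from rfl, hkv]
    funext i
    rw [Int.floor_eq_iff]
    exact ⟨(ht i).1, (ht i).2⟩
  have hinj : Function.Injective (fun k : Fin 4 => kv z π k) := by
    intro a b hab
    exact Fin.ext (kv_inj z π (by omega) (by omega) hab)
  have hk0 : kv z π ((0 : Fin 4) : ℕ) = fun i => ⌊x i⌋ := by
    funext i
    simp [kv, hz]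
  refine ⟨z, π, fun k => kuhnPhi (kv z π k) x, (hmem z).1 (hfloor x hx),
    fun k => kuhnPhi_nonneg _ _, ?_, fun i => ?_⟩
  · show 0 < kuhnPhi (kv z π ((0 : Fin 4) : ℕ)) x
    rw [hk0]
    exact kuhnPhi_floor x
  · have h1 : interp box N x i = 0 := by rw [hx0]; rfl
    rw [← h1]
    unfold interp
    symm
    rw [← Finset.sum_image (f := fun v => kuhnPhi v x * N v i) (g := fun k : Fin 4 => kv z π k)
      (fun a _ b _ hab => hinj hab)]
    -- both sums equal the sum over the union
    have hU1 : ∑ v ∈ box, kuhnPhi v x * N v i =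
        ∑ v ∈ box ∪ Finset.image (fun k : Fin 4 => kv z π k) Finset.univ, kuhnPhi v x * N v i := by
      apply Finset.sum_subset Finset.subset_union_left
      intro v _ hv
      have : kuhnPhi v x = 0 := by
        by_contra hne
        have hp : 0 < kuhnPhi v x := lt_of_le_of_ne (kuhnPhi_nonneg v x) (Ne.symm hne)
        apply hv
        obtain ⟨t, ht0, ht1, ht⟩ := kuhnPhi_pos hp
        rw [hmem]
        intro j
        have a1 := abs_le.1 (hx j)
        have a2 := ht j
        constructor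
        · have h3 : ((-(M : ℤ) : ℤ) : ℝ) < ((v j + 1 : ℤ) : ℝ) := by push_cast; linarith
          have h4 : -(M : ℤ) < v j + 1 := by exact_mod_cast h3
          omega
        · have h3 : ((v j : ℤ) : ℝ) < ((M + 1 : ℤ) : ℝ) := by push_cast; linarith
          have h4 : v j < (M : ℤ) + 1 := by exact_mod_cast h3
          omega
      rw [this, zero_mul]
    have hU2 : ∑ v ∈ Finset.image (fun k : Fin 4 => kv z π k) Finset.univ, kuhnPhi v x * N v i =
        ∑ v ∈ box ∪ Finset.image (fun k : Fin 4 => kv z π k) Finset.univ, kuhnPhi v x * N v i := by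
      apply Finset.sum_subset Finset.subset_union_right
      intro v _ hv
      have : kuhnPhi v x = 0 := by
        by_contra hne
        have hp : 0 < kuhnPhi v x := lt_of_le_of_ne (kuhnPhi_nonneg v x) (Ne.symm hne)
        apply hv
        obtain ⟨k, hk⟩ := hchain v hp
        rw [Finset.mem_image]
        exact ⟨k, Finset.mem_univ _, hk⟩
      rw [this, zero_mul]
    rw [hU1, hU2]

/-- the balanced chain, in coordinates -/
theorem kuhn_zero (N : (Fin 3 → ℤ) → (Fin 3 → ℝ)) (M : ℕ) (hM : 0 < M)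
    (h : ∀ x : Fin 3 → ℝ, (∀ i, |x i| ≤ M) → (∃ i, |x i| = M) → ∀ v : Fin 3 → ℤ,
      (∀ i, |x i - v i| ≤ 1) → 0 < ∑ i, N v i * x i) :
    ∃ (z : Fin 3 → ℤ) (π : Equiv.Perm (Fin 3)) (lam : Fin 4 → ℝ), (∀ k, 0 ≤ lam k) ∧ 0 < lam 0 ∧
      ∀ i, ∑ k : Fin 4, lam k * N (kv z π k) i = 0 := by
  obtain ⟨z, π, lam, -, h1, h2, h3⟩ := kuhn_zero_b N M hM h
  exact ⟨z, π, lam, h1, h2, h3⟩

/-- the real vector with given superbase coordinates -/
def reE (f : Fin 4 → Fin 3 → ℤ) (x : Fin 3 → ℝ) : Fin 3 → ℝ :=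
  fun k => ∑ i : Fin 3, x i * (f i.castSucc k : ℝ)

theorem labE_real (f : Fin 4 → Fin 3 → ℤ) (v : Fin 3 → ℤ) (k : Fin 3) :
    (labE f v k : ℝ) = reE f (fun i => (v i : ℝ)) k := by
  unfold labE reE
  rw [Fin.sum_univ_castSucc]
  have h3 : labC v (Fin.last 3) = 0 := labC_three v
  rw [h3, zero_smul, add_zero, Finset.sum_apply, Int.cast_sum]
  refine Finset.sum_congr rfl (fun i _ => ?_)
  rw [labC_castSucc, Pi.smul_apply, smul_eq_mul, Int.cast_mul]

theorem pr_reE (f : Fin 4 → Fin 3 → ℤ) (n x : Fin 3 → ℝ) :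
    pr n (reE f x) = ∑ i : Fin 3, pz n (f i.castSucc) * x i := by
  unfold pr reE pz
  simp only [Finset.mul_sum, Finset.sum_mul]
  rw [Finset.sum_comm]
  exact Finset.sum_congr rfl (fun i _ => Finset.sum_congr rfl (fun k _ => by ring))

/-- a vector with a large coordinate is large -/
theorem reE_large (f : Fin 4 → Fin 3 → ℤ) (hf : Superbase f) : ∃ C : ℝ, 0 < C ∧
    ∀ (x : Fin 3 → ℝ) (i : Fin 3) (T : ℝ), 0 < T → C * T ≤ |x i| → ∃ k, T ≤ |reE f x k| := by
  obtain ⟨w, hw⟩ := dual_basis f hf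
  refine ⟨∑ i : Fin 4, ∑ k : Fin 3, |(w i k : ℝ)| + 1, by positivity, ?_⟩
  intro x i T hT hxi
  by_contra hcon
  push Not at hcon
  have hw' : ∀ i l, ∑ k, (w i k : ℝ) * (f l k : ℝ)
      = (if l = i then 1 else 0) - (if l = 3 then 1 else 0) := by
    intro i l
    have := congrArg (Int.cast : ℤ → ℝ) (hw i l)
    push_cast at this
    exact this
  have h1 : x i = ∑ k, (w i.castSucc k : ℝ) * reE f x k := by
    unfold reE
    simp only [Finset.mul_sum]
    rw [Finset.sum_comm]
    have h2 : ∀ j : Fin 3, ∑ k : Fin 3, (w i.castSucc k : ℝ) * (x j * (f j.castSucc k : ℝ)) =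
        if j = i then x j else 0 := by
      intro j
      have h3 : ∑ k : Fin 3, (w i.castSucc k : ℝ) * (x j * (f j.castSucc k : ℝ)) =
          x j * ∑ k, (w i.castSucc k : ℝ) * (f j.castSucc k : ℝ) := by
        rw [Finset.mul_sum]
        exact Finset.sum_congr rfl (fun k _ => by ring)
      rw [h3, hw']
      have h4 : j.castSucc ≠ 3 := by
        intro h
        have := congrArg Fin.val h
        simp at this
        omega
      rw [if_neg h4, sub_zero]
      by_cases hji : j = i
      · rw [if_pos hji, if_pos (by rw [hji]), mul_one]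
      · rw [if_neg hji, if_neg (fun h => hji (Fin.castSucc_injective 3 h)), mul_zero]
    simp only [h2]
    simp
  have h2 : |x i| ≤ (∑ k, |(w i.castSucc k : ℝ)|) * T := by
    rw [h1, Finset.sum_mul]
    refine (Finset.abs_sum_le_sum_abs _ _).trans (Finset.sum_le_sum (fun k _ => ?_))
    rw [abs_mul]
    exact mul_le_mul_of_nonneg_left (hcon k).le (abs_nonneg _)
  have h3 : ∑ k, |(w i.castSucc k : ℝ)| ≤ ∑ i : Fin 4, ∑ k : Fin 3, |(w i k : ℝ)| :=
    Finset.single_le_sum (f := fun i : Fin 4 => ∑ k : Fin 3, |(w i k : ℝ)|)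
      (fun i _ => Finset.sum_nonneg (fun k _ => abs_nonneg _)) (Finset.mem_univ _)
  nlinarith

/-- **the balanced chain**, for a given separation of the lattice points, core form -/
theorem chain_core (f : Fin 4 → Fin 3 → ℤ) (hf : Superbase f) (K : Set (Fin 3 → ℝ))
    (hint : (interior K).Nonempty) (n : (Fin 3 → ℤ) → (Fin 3 → ℝ)) (hn0 : ∀ z, n z ≠ 0)
    (hsep : ∀ z, ∀ x ∈ K, pr (n z) x ≤ pz (n z) z) (R : ℝ)
    (hfar : ∀ z : Fin 3 → ℤ, (∃ k, R ≤ |(z k : ℝ)|) → n z = fun k => (z k : ℝ)) :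
    ∃ (z : Fin 3 → ℤ) (π : Equiv.Perm (Fin 3)) (lam : Fin 4 → ℝ), (∀ k, 0 ≤ lam k) ∧
      ∑ k : Fin 4, lam k • n (labE f (kv z π k)) = 0 ∧
      ∑ k : Fin 4, lam k * pz (n (labE f (kv z π k))) (labE f (kv z π k)) = 1 := by
  classical
  obtain ⟨C, hC, hlarge⟩ := reE_large f hf
  set D : ℝ := ∑ i : Fin 3, ∑ k : Fin 3, |(f i.castSucc k : ℝ)| with hD
  have hD0 : 0 ≤ D := Finset.sum_nonneg (fun i _ => Finset.sum_nonneg (fun k _ => abs_nonneg _))
  set T : ℝ := 2 * D + 1 + |R| with hT
  have hT0 : 0 < T := by have := abs_nonneg R; linarith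
  obtain ⟨M, hM⟩ := exists_nat_ge (C * T)
  have hM0 : 0 < M := by
    have h1 : (0 : ℝ) < M := lt_of_lt_of_le (mul_pos hC hT0) hM
    exact_mod_cast h1
  obtain ⟨z, π, mu, hmu, hmu0, hsum⟩ := kuhn_zero (fun v i => pz (n (labE f v)) (f i.castSucc)) M hM0
    (by
      intro x hxM ⟨i, hi⟩ v hv
      rw [← pr_reE]
      obtain ⟨k, hk⟩ := hlarge x i T hT0 (by rw [hi]; exact hM)
      have hdiff : ∀ m, |(labE f v m : ℝ) - reE f x m| ≤ D := by
        intro m
        rw [labE_real]
        unfold reE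
        rw [← Finset.sum_sub_distrib]
        refine (Finset.abs_sum_le_sum_abs _ _).trans ?_
        refine Finset.sum_le_sum (fun j _ => ?_)
        rw [← sub_mul, abs_mul]
        have h1 : |(v j : ℝ) - x j| ≤ 1 := by
          rw [abs_sub_comm]; exact hv j
        have h2 : |(f j.castSucc m : ℝ)| ≤ ∑ k : Fin 3, |(f j.castSucc k : ℝ)| :=
          Finset.single_le_sum (f := fun k : Fin 3 => |(f j.castSucc k : ℝ)|)
            (fun k _ => abs_nonneg _) (Finset.mem_univ m)
        calc |(v j : ℝ) - x j| * |(f j.castSucc m : ℝ)| ≤ 1 * |(f j.castSucc m : ℝ)| :=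
              mul_le_mul_of_nonneg_right h1 (abs_nonneg _)
          _ ≤ _ := by rw [one_mul]; exact h2
      have hkR : R ≤ |((labE f v k : ℤ) : ℝ)| := by
        have h1 : |reE f x k| ≤ |((labE f v k : ℤ) : ℝ)| + |(labE f v k : ℝ) - reE f x k| := by
          have h2 := abs_sub_abs_le_abs_sub (reE f x k) (labE f v k : ℝ)
          rw [abs_sub_comm] at h2
          linarith
        have h2 := hdiff k
        have h3 := le_abs_self R
        linarith
      rw [hfar _ ⟨k, hkR⟩]
      unfold pr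
      show 0 < ∑ m, (labE f v m : ℝ) * reE f x m
      have hterm : ∀ m, |reE f x m| ^ 2 - D * |reE f x m| ≤ (labE f v m : ℝ) * reE f x m := by
        intro m
        have h1 := hdiff m
        have h2 : -(D * |reE f x m|) ≤ ((labE f v m : ℝ) - reE f x m) * reE f x m := by
          have h3 : |((labE f v m : ℝ) - reE f x m) * reE f x m| ≤ D * |reE f x m| := by
            rw [abs_mul]
            exact mul_le_mul_of_nonneg_right h1 (abs_nonneg _)
          exact (abs_le.1 h3).1
        rw [sq_abs]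
        nlinarith
      have hterm' : ∀ m, -(D ^ 2 / 4) ≤ (labE f v m : ℝ) * reE f x m := by
        intro m
        have h1 := hterm m
        nlinarith [sq_nonneg (|reE f x m| - D / 2)]
      have hbig : D ^ 2 / 2 < (labE f v k : ℝ) * reE f x k := by
        have h1 := hterm k
        have h2 : 2 * D + 1 ≤ |reE f x k| := by
          have := abs_nonneg R
          linarith
        nlinarith
      rw [← Finset.add_sum_erase _ _ (Finset.mem_univ k)]
      have h1 : -(D ^ 2 / 4) * 2 ≤ ∑ m ∈ Finset.univ.erase k, (labE f v m : ℝ) * reE f x m := by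
        have h2 := Finset.card_nsmul_le_sum (Finset.univ.erase k)
          (fun m => (labE f v m : ℝ) * reE f x m) (-(D ^ 2 / 4)) (fun m _ => hterm' m)
        have h3 : (Finset.univ.erase k : Finset (Fin 3)).card = 2 := by
          rw [Finset.card_erase_of_mem (Finset.mem_univ k)]
          rfl
        rw [h3, nsmul_eq_mul] at h2
        push_cast at h2
        linarith
      linarith)
  let p : Fin 4 → Fin 3 → ℤ := fun k => labE f (kv z π k)
  -- the sum of the weighted normals vanishes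
  have hpzl : ∀ (a : Fin 4 → ℝ) (m : Fin 4 → Fin 3 → ℝ) (u : Fin 3 → ℤ),
      pz (∑ k, a k • m k) u = ∑ k, a k * pz (m k) u := by
    intro a m u
    unfold pz
    simp only [Finset.sum_apply, Pi.smul_apply, smul_eq_mul, Finset.sum_mul, Finset.mul_sum]
    rw [Finset.sum_comm]
    exact Finset.sum_congr rfl (fun k _ => Finset.sum_congr rfl (fun i _ => by ring))
  have hprl : ∀ (a : Fin 4 → ℝ) (m : Fin 4 → Fin 3 → ℝ) (u : Fin 3 → ℝ),
      pr (∑ k, a k • m k) u = ∑ k, a k * pr (m k) u := by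
    intro a m u
    unfold pr
    simp only [Finset.sum_apply, Pi.smul_apply, smul_eq_mul, Finset.sum_mul, Finset.mul_sum]
    rw [Finset.sum_comm]
    exact Finset.sum_congr rfl (fun k _ => Finset.sum_congr rfl (fun i _ => by ring))
  have hzero : ∑ k, mu k • n (p k) = 0 := by
    apply eq_of_pz f hf
    have h0 : ∀ l, pz (0 : Fin 3 → ℝ) (f l) = 0 := by
      intro l
      unfold pz
      simp
    have h1 : ∀ i : Fin 3, pz (∑ k, mu k • n (p k)) (f i.castSucc) = 0 := by
      intro i
      rw [hpzl]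
      exact hsum i
    have h2 : ∑ l, pz (∑ k, mu k • n (p k)) (f l) = 0 := by
      have h3 : ∀ u : Fin 3 → ℝ, ∑ l, pz u (f l) = 0 := by
        intro u
        have h4 : ∑ l, pz u (f l) = pz u (∑ l, f l) := by
          unfold pz
          rw [Finset.sum_comm]
          refine Finset.sum_congr rfl (fun k _ => ?_)
          rw [Finset.sum_apply, Int.cast_sum, Finset.mul_sum]
        rw [h4, hf.sum]
        unfold pz
        simp
      exact h3 _
    intro l
    rw [h0]
    induction l using Fin.lastCases with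
    | last =>
      rw [Fin.sum_univ_castSucc] at h2
      simp only [h1, Finset.sum_const_zero, zero_add] at h2
      exact h2
    | cast i => exact h1 i
  -- the right side
  obtain ⟨x0, hx0⟩ := hint
  have hxK : x0 ∈ K := interior_subset hx0
  have hstrict : pr (n (p 0)) x0 < pz (n (p 0)) (p 0) := by
    have hcont : ContinuousAt (fun t : ℝ => x0 + t • n (p 0)) 0 := by fun_prop
    have h1 : (fun t : ℝ => x0 + t • n (p 0)) 0 ∈ interior K := by simpa using hx0
    have h2 := hcont.preimage_mem_nhds (isOpen_interior.mem_nhds h1)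
    obtain ⟨ε, hε, hball⟩ := Metric.mem_nhds_iff.1 h2
    have h3 : x0 + (ε / 2) • n (p 0) ∈ K := by
      apply interior_subset
      apply hball
      rw [Metric.mem_ball, Real.dist_eq, sub_zero, abs_of_pos (by linarith)]
      linarith
    have h4 := hsep (p 0) _ h3
    have h5 : pr (n (p 0)) (x0 + (ε / 2) • n (p 0)) =
        pr (n (p 0)) x0 + ε / 2 * ∑ k, n (p 0) k ^ 2 := by
      unfold pr
      rw [Finset.mul_sum, ← Finset.sum_add_distrib]
      refine Finset.sum_congr rfl (fun k _ => ?_)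
      simp only [Pi.add_apply, Pi.smul_apply, smul_eq_mul]
      ring
    have h6 : 0 < ∑ k, n (p 0) k ^ 2 := by
      obtain ⟨k, hk⟩ := Function.ne_iff.1 (hn0 (p 0))
      refine Finset.sum_pos' (fun k _ => sq_nonneg _) ⟨k, Finset.mem_univ _, ?_⟩
      exact lt_of_le_of_ne (sq_nonneg _) (Ne.symm (pow_ne_zero 2 hk))
    nlinarith [mul_pos (half_pos hε) h6]
  have hS : 0 < ∑ k, mu k * pz (n (p k)) (p k) := by
    have h1 : ∑ k, mu k * pr (n (p k)) x0 = 0 := by
      rw [← hprl, hzero]
      unfold pr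
      simp
    rw [← h1]
    refine Finset.sum_lt_sum (fun k _ => mul_le_mul_of_nonneg_left (hsep _ _ hxK) (hmu k))
      ⟨0, Finset.mem_univ _, ?_⟩
    exact mul_lt_mul_of_pos_left hstrict hmu0
  set S := ∑ k, mu k * pz (n (p k)) (p k) with hSdef
  refine ⟨z, π, fun k => mu k / S, fun k => div_nonneg (hmu k) hS.le, ?_, ?_⟩
  · show ∑ k, (mu k / S) • n (p k) = 0
    have h1 : ∑ k, (mu k / S) • n (p k) = S⁻¹ • ∑ k, mu k • n (p k) := by
      rw [Finset.smul_sum]
      refine Finset.sum_congr rfl (fun k _ => ?_)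
      rw [smul_smul]
      congr 1
      field_simp
    rw [h1, hzero, smul_zero]
  · show ∑ k, mu k / S * pz (n (p k)) (p k) = 1
    have h1 : ∑ k, mu k / S * pz (n (p k)) (p k) = S⁻¹ * ∑ k, mu k * pz (n (p k)) (p k) := by
      rw [Finset.mul_sum]
      refine Finset.sum_congr rfl (fun k _ => ?_)
      ring
    rw [h1, ← hSdef, inv_mul_cancel₀ hS.ne']

/-- **the balanced chain**, for a given separation of the lattice points -/
theorem chain_of (f : Fin 4 → Fin 3 → ℤ) (hf : Superbase f) (K : Set (Fin 3 → ℝ))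
    (hint : (interior K).Nonempty) (n : (Fin 3 → ℤ) → (Fin 3 → ℝ)) (hn0 : ∀ z, n z ≠ 0)
    (hsep : ∀ z, ∀ x ∈ K, pr (n z) x ≤ pz (n z) z) (R : ℝ)
    (hfar : ∀ z : Fin 3 → ℤ, (∃ k, R ≤ |(z k : ℝ)|) → n z = fun k => (z k : ℝ)) :
    ∃ (σ : Equiv.Perm (Fin 4)) (p : Fin 4 → Fin 3 → ℤ) (lam : Fin 4 → ℝ), (∀ k, 0 ≤ lam k) ∧
      (∀ k, p (k + 1) = p k + f (σ k)) ∧ ∑ k, lam k • n (p k) = 0 ∧
      ∑ k, lam k * pz (n (p k)) (p k) = 1 := by
  obtain ⟨z, π, lam, h1, h2, h3⟩ := chain_core f hf K hint n hn0 hsep R hfar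
  -- the walk
  let s : Fin 4 → Fin 4 := fun k => if h : (k : ℕ) < 3 then (π ⟨k, h⟩).castSucc else 3
  have hs : Function.Injective s := by
    intro a b hab
    by_cases ha : (a : ℕ) < 3
    · by_cases hb : (b : ℕ) < 3
      · simp only [s, dif_pos ha, dif_pos hb] at hab
        have h1 := π.injective (Fin.castSucc_injective 3 hab)
        exact Fin.ext (Fin.mk.inj_iff.mp h1)
      · simp only [s, dif_pos ha, dif_neg hb] at hab
        have h2 : ((π ⟨a, ha⟩).castSucc : ℕ) < 3 := (π ⟨a, ha⟩).2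
        rw [hab] at h2
        exact absurd h2 (by decide)
    · by_cases hb : (b : ℕ) < 3
      · simp only [s, dif_neg ha, dif_pos hb] at hab
        have h2 : ((π ⟨b, hb⟩).castSucc : ℕ) < 3 := (π ⟨b, hb⟩).2
        rw [← hab] at h2
        exact absurd h2 (by decide)
      · apply Fin.ext
        have := a.2
        have := b.2
        omega
  let p : Fin 4 → Fin 3 → ℤ := fun k => labE f (kv z π k)
  have hp : ∀ k, p (k + 1) = p k + f (s k) := by
    intro k
    by_cases hk : (k : ℕ) < 3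
    · have h1 : ((k + 1 : Fin 4) : ℕ) = k + 1 := by
        rw [Fin.val_add]
        have h3 : ((1 : Fin 4) : ℕ) = 1 := rfl
        rw [h3]
        omega
      simp only [p, s, dif_pos hk]
      rw [h1]
      exact labE_kv f z π k hk
    · have h1 : k = 3 := by
        apply Fin.ext
        have := k.2
        have h3 : ((3 : Fin 4) : ℕ) = 3 := rfl
        omega
      subst h1
      exact labE_last f hf z π
  let σ : Equiv.Perm (Fin 4) := Equiv.ofBijective s (Finite.injective_iff_bijective.mp hs)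
  have hσ : ∀ k, σ k = s k := fun k => rfl
  exact ⟨σ, p, lam, h1, hp, h2, h3⟩

/-- a separation of the lattice points which is radial far away -/
theorem exists_sep (K : Set (Fin 3 → ℝ)) (hKc : Convex ℝ K) (hKb : Bornology.IsBounded K)
    (hint : (interior K).Nonempty) (hfree : ∀ z : Fin 3 → ℤ, (fun i => (z i : ℝ)) ∉ interior K) :
    ∃ (n : (Fin 3 → ℤ) → (Fin 3 → ℝ)) (R : ℝ), (∀ z, n z ≠ 0) ∧
      (∀ z, ∀ x ∈ K, pr (n z) x ≤ pz (n z) z) ∧
      (∀ z : Fin 3 → ℤ, (∃ k, R ≤ |(z k : ℝ)|) → n z = fun k => (z k : ℝ)) := by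
  classical
  obtain ⟨B, hB⟩ := (Metric.isBounded_iff_subset_closedBall 0).mp hKb
  have hKB : ∀ x ∈ K, ∀ k, |x k| ≤ B := by
    intro x hx k
    have h1 : ‖x‖ ≤ B := by
      have := hB hx
      rwa [mem_closedBall_zero_iff] at this
    have h2 := norm_le_pi_norm x k
    rw [Real.norm_eq_abs] at h2
    exact h2.trans h1
  have hB0 : 0 ≤ B := by
    obtain ⟨x, hx⟩ := hint
    exact (abs_nonneg _).trans (hKB x (interior_subset hx) 0)
  have hnear : ∀ z : Fin 3 → ℤ, ∃ m : Fin 3 → ℝ, m ≠ 0 ∧ ∀ x ∈ K, pr m x ≤ pz m z := by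
    intro z
    obtain ⟨φ, hφ⟩ := geometric_hahn_banach_open_point hKc.interior isOpen_interior (hfree z)
    have hφe : ∀ x : Fin 3 → ℝ, φ x = pr (fun k => φ (Pi.single k 1)) x := by
      intro x
      unfold pr
      conv_lhs => rw [pi_eq_sum_univ' x]
      rw [map_sum]
      refine Finset.sum_congr rfl (fun k _ => ?_)
      rw [map_smul, smul_eq_mul, mul_comm]
    have hcl : ∀ x ∈ K, φ x ≤ φ (fun i => (z i : ℝ)) := by
      have h1 : closure (interior K) ⊆ {x | φ x ≤ φ (fun i => (z i : ℝ))} := by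
        apply closure_minimal
        · intro x hx
          exact (hφ x hx).le
        · exact isClosed_le φ.continuous continuous_const
      intro x hx
      apply h1
      rw [hKc.closure_interior_eq_closure_of_nonempty_interior hint]
      exact subset_closure hx
    refine ⟨fun k => φ (Pi.single k 1), ?_, ?_⟩
    · intro h0
      obtain ⟨x, hx⟩ := hint
      have h1 := hφ x hx
      rw [hφe x, hφe, h0] at h1
      unfold pr at h1
      simp at h1
    · intro x hx
      have h1 := hcl x hx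
      rw [hφe x, hφe] at h1
      exact h1
  choose m hm0 hm using hnear
  refine ⟨fun z => if ∃ k, 3 * B + 1 ≤ |(z k : ℝ)| then (fun k => (z k : ℝ)) else m z, 3 * B + 1,
    ?_, ?_, ?_⟩
  · intro z
    by_cases h : ∃ k, 3 * B + 1 ≤ |(z k : ℝ)|
    · simp only [if_pos h]
      obtain ⟨k, hk⟩ := h
      intro h0
      have h1 := congrFun h0 k
      simp only [Pi.zero_apply] at h1
      rw [h1, abs_zero] at hk
      linarith
    · simp only [if_neg h]
      exact hm0 z
  · intro z x hx
    by_cases h : ∃ k, 3 * B + 1 ≤ |(z k : ℝ)|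
    · simp only [if_pos h]
      obtain ⟨k, hk⟩ := h
      unfold pr pz
      have hterm : ∀ i, (z i : ℝ) * x i ≤ (z i : ℝ) * (z i : ℝ) + B ^ 2 / 4 := by
        intro i
        have h1 : (z i : ℝ) * x i ≤ |(z i : ℝ)| * B := by
          calc (z i : ℝ) * x i ≤ |(z i : ℝ) * x i| := le_abs_self _
            _ = |(z i : ℝ)| * |x i| := abs_mul _ _
            _ ≤ |(z i : ℝ)| * B := mul_le_mul_of_nonneg_left (hKB x hx i) (abs_nonneg _)
        have h2 : (z i : ℝ) * (z i : ℝ) = |(z i : ℝ)| ^ 2 := by rw [sq_abs]; ring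
        nlinarith [sq_nonneg (|(z i : ℝ)| - B / 2)]
      have hbig : (z k : ℝ) * x k + B ^ 2 / 2 ≤ (z k : ℝ) * (z k : ℝ) := by
        have h1 : (z k : ℝ) * x k ≤ |(z k : ℝ)| * B := by
          calc (z k : ℝ) * x k ≤ |(z k : ℝ) * x k| := le_abs_self _
            _ = |(z k : ℝ)| * |x k| := abs_mul _ _
            _ ≤ |(z k : ℝ)| * B := mul_le_mul_of_nonneg_left (hKB x hx k) (abs_nonneg _)
        have h2 : (z k : ℝ) * (z k : ℝ) = |(z k : ℝ)| ^ 2 := by rw [sq_abs]; ring
        nlinarith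
      rw [← Finset.add_sum_erase _ _ (Finset.mem_univ k),
        ← Finset.add_sum_erase (a := k) _ (fun i => (z i : ℝ) * (z i : ℝ)) (Finset.mem_univ k)]
      have h3 : (Finset.univ.erase k : Finset (Fin 3)).card = 2 := by
        rw [Finset.card_erase_of_mem (Finset.mem_univ k)]
        rfl
      have h1 : ∑ i ∈ Finset.univ.erase k, (z i : ℝ) * x i ≤
          ∑ i ∈ Finset.univ.erase k, ((z i : ℝ) * (z i : ℝ) + B ^ 2 / 4) :=
        Finset.sum_le_sum (fun i _ => hterm i)
      rw [Finset.sum_add_distrib, Finset.sum_const, h3, nsmul_eq_mul] at h1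
      push_cast at h1
      linarith
    · simp only [if_neg h]
      exact hm z x hx
  · intro z h
    simp only [if_pos h]

/-- **step (3)**: the balanced chain of a lattice-free convex body, for an arbitrary superbase -/
theorem chain (f : Fin 4 → Fin 3 → ℤ) (hf : Superbase f) (K : Set (Fin 3 → ℝ)) (hKc : Convex ℝ K)
    (hKb : Bornology.IsBounded K) (hint : (interior K).Nonempty)
    (hfree : ∀ z : Fin 3 → ℤ, (fun i => (z i : ℝ)) ∉ interior K) :
    ∃ (σ : Equiv.Perm (Fin 4)) (p : Fin 4 → Fin 3 → ℤ) (v : Fin 4 → Fin 3 → ℝ),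
      (∀ k, p (k + 1) = p k + f (σ k)) ∧ ∑ k, v k = 0 ∧ ∑ k, pz (v k) (p k) = 1 ∧
      ∀ k, ∀ x ∈ K, pr (v k) x ≤ pz (v k) (p k) := by
  obtain ⟨n, R, hn0, hsep, hfar⟩ := exists_sep K hKc hKb hint hfree
  obtain ⟨σ, p, lam, hlam, hp, hsum, hone⟩ := chain_of f hf K hint n hn0 hsep R hfar
  have hpz : ∀ (a : ℝ) (m : Fin 3 → ℝ) (u : Fin 3 → ℤ), pz (a • m) u = a * pz m u := by
    intro a m u
    unfold pz
    rw [Finset.mul_sum]
    exact Finset.sum_congr rfl (fun i _ => by rw [Pi.smul_apply, smul_eq_mul]; ring)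
  have hpr : ∀ (a : ℝ) (m u : Fin 3 → ℝ), pr (a • m) u = a * pr m u := by
    intro a m u
    unfold pr
    rw [Finset.mul_sum]
    exact Finset.sum_congr rfl (fun i _ => by rw [Pi.smul_apply, smul_eq_mul]; ring)
  refine ⟨σ, p, fun k => lam k • n (p k), hp, hsum, ?_, ?_⟩
  · simp only [hpz]
    exact hone
  · intro k x hx
    rw [hpz, hpr]
    exact mul_le_mul_of_nonneg_left (hsep _ x hx) (hlam k)

end Pool.Agent.Helper1.UB
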