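import Pool.Agent.Helper1.UB.Generic

/-! MP_be0fb5, universal bound: the nondegenerate balanced chain and the cut lemma. -/

set_option autoImplicit false

namespace Pool.Agent.Helper1.UB

open Matrix Topology Pool.Agent.Helper84.FL
open Pool.Agent.Helper22.Sym (form_sum cs_inv toR)

theorem labE_inj (f : Fin 4 → Fin 3 → ℤ) (hf : Superbase f) : Function.Injective (labE f) := by
  intro a b hab
  funext i
  obtain ⟨u, hu⟩ := real_dual f hf (fun l => (if l = i.castSucc then (1 : ℝ) else 0) -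
    (if l = 3 then 1 else 0)) (by
      rw [Finset.sum_sub_distrib]
      simp)
  have h : ∀ z : Fin 3 → ℤ, pz u (labE f z) = z i := by
    intro z
    rw [pz_labE]
    simp only [hu, mul_sub, mul_ite, mul_one, mul_zero, Finset.sum_sub_distrib,
      Finset.sum_ite_eq', Finset.mem_univ, if_true]
    rw [labC_castSucc, labC_three]
    simp
  have h1 := h a
  rw [hab, h b] at h1
  exact_mod_cast h1.symm

/-- the far estimate -/
theorem radius (f : Fin 4 → Fin 3 → ℤ) (hf : Superbase f) (R : ℝ) :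
    ∃ M : ℕ, 0 < M ∧ ∀ n : (Fin 3 → ℤ) → (Fin 3 → ℝ),
      (∀ z : Fin 3 → ℤ, (∃ k, R ≤ |(z k : ℝ)|) → ∀ k, |n z k - z k| ≤ 1) →
      ∀ x : Fin 3 → ℝ, (∀ i, |x i| ≤ M) → (∃ i, |x i| = M) → ∀ v : Fin 3 → ℤ,
      (∀ i, |x i - v i| ≤ 1) → 0 < ∑ i : Fin 3, pz (n (labE f v)) (f i.castSucc) * x i := by
  obtain ⟨C, hC, hlarge⟩ := reE_large f hf
  set D : ℝ := ∑ i : Fin 3, ∑ k : Fin 3, |(f i.castSucc k : ℝ)| with hD
  have hD0 : 0 ≤ D := Finset.sum_nonneg (fun i _ => Finset.sum_nonneg (fun k _ => abs_nonneg _))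
  set T : ℝ := 2 * (D + 1) + 1 + |R| with hT
  have hT0 : 0 < T := by have := abs_nonneg R; linarith
  obtain ⟨M, hM⟩ := exists_nat_ge (C * T)
  have hM0 : 0 < M := by
    have h1 : (0 : ℝ) < M := lt_of_lt_of_le (mul_pos hC hT0) hM
    exact_mod_cast h1
  refine ⟨M, hM0, ?_⟩
  intro n hfar x hxM ⟨i, hi⟩ v hv
  rw [← pr_reE]
  obtain ⟨k, hk⟩ := hlarge x i T hT0 (by rw [hi]; exact hM)
  have hdiff : ∀ m, |(labE f v m : ℝ) - reE f x m| ≤ D := by
    intro m
    rw [labE_real]
    unfold reE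
    rw [← Finset.sum_sub_distrib]
    refine (Finset.abs_sum_le_sum_abs _ _).trans ?_
    refine Finset.sum_le_sum (fun j _ => ?_)
    rw [← sub_mul, abs_mul]
    have h1 : |(v j : ℝ) - x j| ≤ 1 := by
      rw [abs_sub_comm]; exact hv j
    have h2 : |(f j.castSucc m : ℝ)| ≤ ∑ k : Fin 3, |(f j.castSucc k : ℝ)| :=
      Finset.single_le_sum (f := fun k : Fin 3 => |(f j.castSucc k : ℝ)|)
        (fun k _ => abs_nonneg _) (Finset.mem_univ m)
    calc |(v j : ℝ) - x j| * |(f j.castSucc m : ℝ)| ≤ 1 * |(f j.castSucc m : ℝ)| :=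
          mul_le_mul_of_nonneg_right h1 (abs_nonneg _)
      _ ≤ _ := by rw [one_mul]; exact h2
  have hkR : R ≤ |((labE f v k : ℤ) : ℝ)| := by
    have h1 : |reE f x k| ≤ |((labE f v k : ℤ) : ℝ)| + |(labE f v k : ℝ) - reE f x k| := by
      have h2 := abs_sub_abs_le_abs_sub (reE f x k) (labE f v k : ℝ)
      rw [abs_sub_comm] at h2
      linarith
    have h2 := hdiff k
    have h3 := le_abs_self R
    linarith
  have hnv := hfar _ ⟨k, hkR⟩
  have hdiff' : ∀ m, |n (labE f v) m - reE f x m| ≤ D + 1 := by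
    intro m
    have h1 := hnv m
    have h2 := hdiff m
    have h3 := abs_sub_le (n (labE f v) m) (labE f v m : ℝ) (reE f x m)
    linarith
  unfold pr
  have hterm : ∀ m, |reE f x m| ^ 2 - (D + 1) * |reE f x m| ≤ n (labE f v) m * reE f x m := by
    intro m
    have h1 := hdiff' m
    have h2 : -((D + 1) * |reE f x m|) ≤ (n (labE f v) m - reE f x m) * reE f x m := by
      have h3 : |(n (labE f v) m - reE f x m) * reE f x m| ≤ (D + 1) * |reE f x m| := by
        rw [abs_mul]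
        exact mul_le_mul_of_nonneg_right h1 (abs_nonneg _)
      exact (abs_le.1 h3).1
    rw [sq_abs]
    nlinarith
  have hterm' : ∀ m, -((D + 1) ^ 2 / 4) ≤ n (labE f v) m * reE f x m := by
    intro m
    have h1 := hterm m
    nlinarith [sq_nonneg (|reE f x m| - (D + 1) / 2)]
  have hbig : (D + 1) ^ 2 / 2 < n (labE f v) k * reE f x k := by
    have h1 := hterm k
    have h2 : 2 * (D + 1) + 1 ≤ |reE f x k| := by
      have := abs_nonneg R
      linarith
    nlinarith
  rw [← Finset.add_sum_erase _ _ (Finset.mem_univ k)]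
  have h1 : -((D + 1) ^ 2 / 4) * 2 ≤ ∑ m ∈ Finset.univ.erase k, n (labE f v) m * reE f x m := by
    have h2 := Finset.card_nsmul_le_sum (Finset.univ.erase k)
      (fun m => n (labE f v) m * reE f x m) (-((D + 1) ^ 2 / 4)) (fun m _ => hterm' m)
    have h3 : (Finset.univ.erase k : Finset (Fin 3)).card = 2 := by
      rw [Finset.card_erase_of_mem (Finset.mem_univ k)]
      rfl
    rw [h3, nsmul_eq_mul] at h2
    push_cast at h2
    linarith
  linarith

/-- the strictly separating vectors -/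
def SepSet (K : Set (Fin 3 → ℝ)) (z : Fin 3 → ℤ) : Set (Fin 3 → ℝ) :=
  {n | ∀ x ∈ K, pr n x < pz n z}

theorem SepSet_open (K : Set (Fin 3 → ℝ)) (hK : IsCompact K) (z : Fin 3 → ℤ) :
    IsOpen (SepSet K z) := by
  rw [isOpen_iff_eventually]
  intro n hn
  apply hK.eventually_forall_of_forall_eventually
  intro x hx
  have h1 : Continuous fun p : (Fin 3 → ℝ) × (Fin 3 → ℝ) => pr p.1 p.2 := by
    unfold pr
    fun_prop
  have h2 : Continuous fun p : (Fin 3 → ℝ) × (Fin 3 → ℝ) => pz p.1 z := by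
    unfold pz
    fun_prop
  exact (isOpen_lt h1 h2).mem_nhds (hn x hx)

theorem SepSet_nonempty (K : Set (Fin 3 → ℝ)) (hK : IsCompact K) (hKc : Convex ℝ K) (z : Fin 3 → ℤ)
    (hz : toR z ∉ K) : (SepSet K z).Nonempty := by
  obtain ⟨φ, u, h1, h2⟩ := geometric_hahn_banach_closed_point hKc hK.isClosed hz
  have hφe : ∀ x : Fin 3 → ℝ, φ x = pr (fun k => φ (Pi.single k 1)) x := by
    intro x
    unfold pr
    conv_lhs => rw [pi_eq_sum_univ' x]
    rw [map_sum]
    refine Finset.sum_congr rfl (fun k _ => ?_)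
    rw [map_smul, smul_eq_mul, mul_comm]
  refine ⟨fun k => φ (Pi.single k 1), fun x hx => ?_⟩
  have h3 := (h1 x hx).trans h2
  rw [hφe x, hφe (toR z)] at h3
  exact h3

/-- far away the point itself separates -/
theorem SepSet_far (K : Set (Fin 3 → ℝ)) (B : ℝ) (hB0 : 0 ≤ B) (hKB : ∀ x ∈ K, ∀ k, |x k| ≤ B)
    (z : Fin 3 → ℤ) (hz : ∃ k, 3 * B + 1 ≤ |(z k : ℝ)|) : (fun k => (z k : ℝ)) ∈ SepSet K z := by
  intro x hx
  obtain ⟨k, hk⟩ := hz
  unfold pr pz
  have hterm : ∀ i, (z i : ℝ) * x i ≤ (z i : ℝ) * (z i : ℝ) + B ^ 2 / 4 := by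
    intro i
    have h1 : (z i : ℝ) * x i ≤ |(z i : ℝ)| * B := by
      calc (z i : ℝ) * x i ≤ |(z i : ℝ) * x i| := le_abs_self _
        _ = |(z i : ℝ)| * |x i| := abs_mul _ _
        _ ≤ |(z i : ℝ)| * B := mul_le_mul_of_nonneg_left (hKB x hx i) (abs_nonneg _)
    have h2 : (z i : ℝ) * (z i : ℝ) = |(z i : ℝ)| ^ 2 := by rw [sq_abs]; ring
    nlinarith [sq_nonneg (|(z i : ℝ)| - B / 2)]
  have hbig : (z k : ℝ) * x k + B ^ 2 / 2 < (z k : ℝ) * (z k : ℝ) := by
    have h1 : (z k : ℝ) * x k ≤ |(z k : ℝ)| * B := by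
      calc (z k : ℝ) * x k ≤ |(z k : ℝ) * x k| := le_abs_self _
        _ = |(z k : ℝ)| * |x k| := abs_mul _ _
        _ ≤ |(z k : ℝ)| * B := mul_le_mul_of_nonneg_left (hKB x hx k) (abs_nonneg _)
    have h2 : (z k : ℝ) * (z k : ℝ) = |(z k : ℝ)| ^ 2 := by rw [sq_abs]; ring
    nlinarith
  rw [← Finset.add_sum_erase _ _ (Finset.mem_univ k),
    ← Finset.add_sum_erase (a := k) _ (fun i => (z i : ℝ) * (z i : ℝ)) (Finset.mem_univ k)]
  have h3 : (Finset.univ.erase k : Finset (Fin 3)).card = 2 := by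
    rw [Finset.card_erase_of_mem (Finset.mem_univ k)]
    rfl
  have h1 : ∑ i ∈ Finset.univ.erase k, (z i : ℝ) * x i ≤
      ∑ i ∈ Finset.univ.erase k, ((z i : ℝ) * (z i : ℝ) + B ^ 2 / 4) :=
    Finset.sum_le_sum (fun i _ => hterm i)
  rw [Finset.sum_add_distrib, Finset.sum_const, h3, nsmul_eq_mul] at h1
  push_cast at h1
  linarith

/-- a separation which is generic on a finite set and nearly radial far away -/
theorem exists_sep_gen (K : Set (Fin 3 → ℝ)) (hK : IsCompact K) (hKc : Convex ℝ K)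
    (hint : (interior K).Nonempty) (hfree : ∀ z : Fin 3 → ℤ, toR z ∉ K) :
    ∃ R : ℝ, ∀ S : Finset (Fin 3 → ℤ), ∃ n : (Fin 3 → ℤ) → (Fin 3 → ℝ),
      (∀ z, ∀ x ∈ K, pr (n z) x < pz (n z) z) ∧
      (∀ z : Fin 3 → ℤ, (∃ k, R ≤ |(z k : ℝ)|) → ∀ k, |n z k - z k| ≤ 1) ∧
      ∀ a ∈ S, ∀ b ∈ S, ∀ c ∈ S, a ≠ b → a ≠ c → b ≠ c → tri (n a) (n b) (n c) ≠ 0 := by
  classical
  obtain ⟨B, hB⟩ := (Metric.isBounded_iff_subset_closedBall 0).mp hK.isBounded
  have hKB : ∀ x ∈ K, ∀ k, |x k| ≤ B := by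
    intro x hx k
    have h1 : ‖x‖ ≤ B := by
      have := hB hx
      rwa [mem_closedBall_zero_iff] at this
    have h2 := norm_le_pi_norm x k
    rw [Real.norm_eq_abs] at h2
    exact h2.trans h1
  have hB0 : 0 ≤ B := by
    obtain ⟨x, hx⟩ := hint
    exact (abs_nonneg _).trans (hKB x (interior_subset hx) 0)
  refine ⟨3 * B + 1, fun S => ?_⟩
  obtain ⟨n, hn, -, -, htri⟩ := generic
    (fun z => SepSet K z ∩ {n | (∃ k, 3 * B + 1 ≤ |(z k : ℝ)|) → ∀ k, |n k - (z k : ℝ)| < 1})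
    (fun z => by
      refine (SepSet_open K hK z).inter ?_
      by_cases h : ∃ k, 3 * B + 1 ≤ |(z k : ℝ)|
      · have e : {n : Fin 3 → ℝ | (∃ k, 3 * B + 1 ≤ |(z k : ℝ)|) → ∀ k, |n k - (z k : ℝ)| < 1} =
            ⋂ k : Fin 3, {n : Fin 3 → ℝ | |n k - (z k : ℝ)| < 1} := by
          ext n
          simp only [Set.mem_ofPred_eq, Set.mem_iInter]
          exact ⟨fun g => g h, fun g _ => g⟩
        rw [e]
        refine isOpen_iInter_of_finite (fun k => ?_)
        exact isOpen_lt (by fun_prop) continuous_const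
      · have e : {n : Fin 3 → ℝ | (∃ k, 3 * B + 1 ≤ |(z k : ℝ)|) → ∀ k, |n k - (z k : ℝ)| < 1} =
            Set.univ := by
          ext n
          simp only [Set.mem_ofPred_eq, Set.mem_univ, iff_true]
          exact fun g => absurd g h
        rw [e]
        exact isOpen_univ)
    (fun z => by
      by_cases h : ∃ k, 3 * B + 1 ≤ |(z k : ℝ)|
      · refine ⟨fun k => (z k : ℝ), SepSet_far K B hB0 hKB z h, fun _ k => ?_⟩
        simp
      · obtain ⟨m, hm⟩ := SepSet_nonempty K hK hKc z (hfree z)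
        exact ⟨m, hm, fun g => absurd g h⟩) S
  exact ⟨n, fun z => (hn z).1, fun z hz k => ((hn z).2 hz k).le, htri⟩

/-- four vectors, three of which are always independent, in a nontrivial nonnegative relation -/
theorem all_pos (m : Fin 4 → Fin 3 → ℝ) (lam : Fin 4 → ℝ) (h : ∑ k, lam k • m k = 0)
    (hlam : ∀ k, 0 ≤ lam k) (h0 : 0 < lam 0)
    (htri : ∀ a b c : Fin 4, a ≠ b → a ≠ c → b ≠ c → tri (m a) (m b) (m c) ≠ 0) :
    ∀ k, 0 < lam k := by
  have hc : ∀ i, lam 0 * m 0 i + lam 1 * m 1 i + lam 2 * m 2 i + lam 3 * m 3 i = 0 := by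
    intro i
    have h1 := congrFun h i
    rw [Fin.sum_univ_four] at h1
    simpa using h1
  have c0 := hc 0
  have c1 := hc 1
  have c2 := hc 2
  intro k
  refine lt_of_le_of_ne (hlam k) (fun hk => ?_)
  fin_cases k
  · exact h0.ne hk
  · have t := htri 0 2 3 (by decide) (by decide) (by decide)
    rw [tri_expand] at t
    apply t
    have hk' : lam 1 = 0 := hk.symm
    rw [hk'] at c0 c1 c2
    have e : lam 0 * (m 0 0 * (m 2 1 * m 3 2 - m 2 2 * m 3 1) + m 0 1 * (m 2 2 * m 3 0 - m 2 0 * m 3 2) +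
        m 0 2 * (m 2 0 * m 3 1 - m 2 1 * m 3 0)) = 0 := by
      linear_combination (m 2 1 * m 3 2 - m 2 2 * m 3 1) * c0 + (m 2 2 * m 3 0 - m 2 0 * m 3 2) * c1 +
        (m 2 0 * m 3 1 - m 2 1 * m 3 0) * c2
    exact (mul_eq_zero.1 e).resolve_left h0.ne'
  · have t := htri 0 1 3 (by decide) (by decide) (by decide)
    rw [tri_expand] at t
    apply t
    have hk' : lam 2 = 0 := hk.symm
    rw [hk'] at c0 c1 c2
    have e : lam 0 * (m 0 0 * (m 1 1 * m 3 2 - m 1 2 * m 3 1) + m 0 1 * (m 1 2 * m 3 0 - m 1 0 * m 3 2) +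
        m 0 2 * (m 1 0 * m 3 1 - m 1 1 * m 3 0)) = 0 := by
      linear_combination (m 1 1 * m 3 2 - m 1 2 * m 3 1) * c0 + (m 1 2 * m 3 0 - m 1 0 * m 3 2) * c1 +
        (m 1 0 * m 3 1 - m 1 1 * m 3 0) * c2
    exact (mul_eq_zero.1 e).resolve_left h0.ne'
  · have t := htri 0 1 2 (by decide) (by decide) (by decide)
    rw [tri_expand] at t
    apply t
    have hk' : lam 3 = 0 := hk.symm
    rw [hk'] at c0 c1 c2
    have e : lam 0 * (m 0 0 * (m 1 1 * m 2 2 - m 1 2 * m 2 1) + m 0 1 * (m 1 2 * m 2 0 - m 1 0 * m 2 2) +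
        m 0 2 * (m 1 0 * m 2 1 - m 1 1 * m 2 0)) = 0 := by
      linear_combination (m 1 1 * m 2 2 - m 1 2 * m 2 1) * c0 + (m 1 2 * m 2 0 - m 1 0 * m 2 2) * c1 +
        (m 1 0 * m 2 1 - m 1 1 * m 2 0) * c2
    exact (mul_eq_zero.1 e).resolve_left h0.ne'

/-- three independent vectors span -/
theorem span_three (a b c : Fin 3 → ℝ) (h : tri a b c ≠ 0) (m : Fin 3 → ℝ) :
    ∃ x y z : ℝ, x • a + y • b + z • c = m := by
  refine ⟨tri m b c / tri a b c, tri a m c / tri a b c, tri a b m / tri a b c, ?_⟩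
  have key : ∀ i, tri m b c * a i + tri a m c * b i + tri a b m * c i = tri a b c * m i := by
    intro i
    simp only [tri_expand]
    fin_cases i
    · simp only [Fin.zero_eta]
      ring
    · simp only [Fin.mk_one]
      ring
    · show _ * a 2 + _ * b 2 + _ * c 2 = _ * m 2
      ring
  funext i
  simp only [Pi.add_apply, Pi.smul_apply, smul_eq_mul]
  have := key i
  field_simp
  linarith

/-- **the nondegenerate balanced chain** -/
theorem chain_gen (f : Fin 4 → Fin 3 → ℤ) (hf : Superbase f) (K : Set (Fin 3 → ℝ)) (hKc : Convex ℝ K)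
    (hK : IsCompact K) (hint : (interior K).Nonempty) (hfree : ∀ z : Fin 3 → ℤ, toR z ∉ K) :
    ∃ (σ : Equiv.Perm (Fin 4)) (p : Fin 4 → Fin 3 → ℤ) (v : Fin 4 → Fin 3 → ℝ),
      (∀ k, p (k + 1) = p k + f (σ k)) ∧ ∑ k, v k = 0 ∧ ∑ k, pz (v k) (p k) = 1 ∧
      (∀ k, ∀ x ∈ K, pr (v k) x ≤ pz (v k) (p k)) ∧
      ∀ m : Fin 3 → ℝ, ∃ c : Fin 4 → ℝ, ∑ k, c k • v k = m := by
  classical
  obtain ⟨R, hR⟩ := exists_sep_gen K hK hKc hint hfree
  obtain ⟨M, hM0, hM⟩ := radius f hf R
  obtain ⟨n, hsep, hfar, htri⟩ := hR ((Finset.Icc (fun _ => -(M : ℤ)) (fun _ => (M : ℤ) + 1)).image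
    (labE f))
  obtain ⟨z, π, mu, hz, hmu, hmu0, hsum⟩ := kuhn_zero_b
    (fun v i => pz (n (labE f v)) (f i.castSucc)) M hM0 (hM n hfar)
  -- the walk
  let s : Fin 4 → Fin 4 := fun k => if h : (k : ℕ) < 3 then (π ⟨k, h⟩).castSucc else 3
  have hs : Function.Injective s := by
    intro a b hab
    by_cases ha : (a : ℕ) < 3
    · by_cases hb : (b : ℕ) < 3
      · simp only [s, dif_pos ha, dif_pos hb] at hab
        have h1 := π.injective (Fin.castSucc_injective 3 hab)
        exact Fin.ext (Fin.mk.inj_iff.mp h1)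
      · simp only [s, dif_pos ha, dif_neg hb] at hab
        have h2 : ((π ⟨a, ha⟩).castSucc : ℕ) < 3 := (π ⟨a, ha⟩).2
        rw [hab] at h2
        exact absurd h2 (by decide)
    · by_cases hb : (b : ℕ) < 3
      · simp only [s, dif_neg ha, dif_pos hb] at hab
        have h2 : ((π ⟨b, hb⟩).castSucc : ℕ) < 3 := (π ⟨b, hb⟩).2
        rw [← hab] at h2
        exact absurd h2 (by decide)
      · apply Fin.ext
        have := a.2
        have := b.2
        omega
  let p : Fin 4 → Fin 3 → ℤ := fun k => labE f (kv z π k)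
  have hp : ∀ k, p (k + 1) = p k + f (s k) := by
    intro k
    by_cases hk : (k : ℕ) < 3
    · have h1 : ((k + 1 : Fin 4) : ℕ) = k + 1 := by
        rw [Fin.val_add]
        have h3 : ((1 : Fin 4) : ℕ) = 1 := rfl
        rw [h3]
        omega
      simp only [p, s, dif_pos hk]
      rw [h1]
      exact labE_kv f z π k hk
    · have h1 : k = 3 := by
        apply Fin.ext
        have := k.2
        have h3 : ((3 : Fin 4) : ℕ) = 3 := rfl
        omega
      subst h1
      exact labE_last f hf z π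
  let σ : Equiv.Perm (Fin 4) := Equiv.ofBijective s (Finite.injective_iff_bijective.mp hs)
  have hpz : ∀ (a : ℝ) (m : Fin 3 → ℝ) (u : Fin 3 → ℤ), pz (a • m) u = a * pz m u := by
    intro a m u
    unfold pz
    rw [Finset.mul_sum]
    exact Finset.sum_congr rfl (fun i _ => by rw [Pi.smul_apply, smul_eq_mul]; ring)
  have hpr : ∀ (a : ℝ) (m u : Fin 3 → ℝ), pr (a • m) u = a * pr m u := by
    intro a m u
    unfold pr
    rw [Finset.mul_sum]
    exact Finset.sum_congr rfl (fun i _ => by rw [Pi.smul_apply, smul_eq_mul]; ring)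
  have hpzs : ∀ (m : Fin 4 → Fin 3 → ℝ) (u : Fin 3 → ℤ), pz (∑ k, m k) u = ∑ k, pz (m k) u := by
    intro m u
    unfold pz
    simp only [Finset.sum_apply, Finset.sum_mul]
    exact Finset.sum_comm
  have hprs : ∀ (m : Fin 4 → Fin 3 → ℝ) (u : Fin 3 → ℝ), pr (∑ k, m k) u = ∑ k, pr (m k) u := by
    intro m u
    unfold pr
    simp only [Finset.sum_apply, Finset.sum_mul]
    exact Finset.sum_comm
  -- the sum of the weighted normals vanishes
  have hzero : ∑ k, mu k • n (p k) = 0 := by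
    apply eq_of_pz f hf
    have h0 : ∀ l, pz (0 : Fin 3 → ℝ) (f l) = 0 := by
      intro l
      unfold pz
      simp
    have h1 : ∀ i : Fin 3, pz (∑ k, mu k • n (p k)) (f i.castSucc) = 0 := by
      intro i
      rw [hpzs]
      simp only [hpz]
      exact hsum i
    have h2 : ∑ l, pz (∑ k, mu k • n (p k)) (f l) = 0 := by
      have h3 : ∀ u : Fin 3 → ℝ, ∑ l, pz u (f l) = 0 := by
        intro u
        have h4 : ∑ l, pz u (f l) = pz u (∑ l, f l) := by
          unfold pz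
          rw [Finset.sum_comm]
          refine Finset.sum_congr rfl (fun k _ => ?_)
          rw [Finset.sum_apply, Int.cast_sum, Finset.mul_sum]
        rw [h4, hf.sum]
        unfold pz
        simp
      exact h3 _
    intro l
    rw [h0]
    induction l using Fin.lastCases with
    | last =>
      rw [Fin.sum_univ_castSucc] at h2
      simp only [h1, Finset.sum_const_zero, zero_add] at h2
      exact h2
    | cast i => exact h1 i
  -- genericity
  have hpmem : ∀ k, p k ∈ (Finset.Icc (fun _ => -(M : ℤ)) (fun _ => (M : ℤ) + 1)).image (labE f) := by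
    intro k
    refine Finset.mem_image_of_mem _ ?_
    rw [Finset.mem_Icc, Pi.le_def, Pi.le_def]
    constructor
    · intro i
      have := hz i
      unfold kv
      split_ifs <;> omega
    · intro i
      have := hz i
      unfold kv
      split_ifs <;> omega
  have hpinj : Function.Injective p := by
    intro a b hab
    exact Fin.ext (kv_inj z π (by omega) (by omega) (labE_inj f hf hab))
  have htri' : ∀ a b c : Fin 4, a ≠ b → a ≠ c → b ≠ c → tri (n (p a)) (n (p b)) (n (p c)) ≠ 0 := by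
    intro a b c hab hac hbc
    exact htri _ (hpmem a) _ (hpmem b) _ (hpmem c) (hpinj.ne hab) (hpinj.ne hac) (hpinj.ne hbc)
  have hpos := all_pos (fun k => n (p k)) mu hzero hmu hmu0 htri'
  -- the right side
  obtain ⟨x0, hx0⟩ := hint
  have hxK : x0 ∈ K := interior_subset hx0
  have hS : 0 < ∑ k, mu k * pz (n (p k)) (p k) := by
    have h1 : ∑ k, mu k * pr (n (p k)) x0 = 0 := by
      have h2 : ∑ k, mu k * pr (n (p k)) x0 = pr (∑ k, mu k • n (p k)) x0 := by
        rw [hprs]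
        simp only [hpr]
      rw [h2, hzero]
      unfold pr
      simp
    rw [← h1]
    exact Finset.sum_lt_sum_of_nonempty Finset.univ_nonempty
      (fun k _ => mul_lt_mul_of_pos_left (hsep _ _ hxK) (hpos k))
  set S := ∑ k, mu k * pz (n (p k)) (p k) with hSdef
  refine ⟨σ, p, fun k => (mu k / S) • n (p k), hp, ?_, ?_, ?_, ?_⟩
  · have h1 : ∑ k, (mu k / S) • n (p k) = S⁻¹ • ∑ k, mu k • n (p k) := by
      rw [Finset.smul_sum]
      refine Finset.sum_congr rfl (fun k _ => ?_)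
      rw [smul_smul]
      congr 1
      field_simp
    rw [h1, hzero, smul_zero]
  · have h1 : ∑ k, pz ((mu k / S) • n (p k)) (p k) = S⁻¹ * ∑ k, mu k * pz (n (p k)) (p k) := by
      rw [Finset.mul_sum]
      refine Finset.sum_congr rfl (fun k _ => ?_)
      rw [hpz]
      ring
    rw [h1, ← hSdef, inv_mul_cancel₀ hS.ne']
  · intro k x hx
    rw [hpz, hpr]
    exact mul_le_mul_of_nonneg_left (hsep _ x hx).le (div_nonneg (hmu k) hS.le)
  · intro m
    obtain ⟨x, y, w, hxyw⟩ := span_three (n (p 0)) (n (p 1)) (n (p 2))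
      (htri' 0 1 2 (by decide) (by decide) (by decide)) m
    refine ⟨![x * (S / mu 0), y * (S / mu 1), w * (S / mu 2), 0], ?_⟩
    have hc : ∀ (k : Fin 4) (t : ℝ), t * (S / mu k) * (mu k / S) = t := by
      intro k t
      have h1 := (hpos k).ne'
      have h2 := hS.ne'
      field_simp
    rw [Fin.sum_univ_four]
    show (x * (S / mu 0)) • (mu 0 / S) • n (p 0) + (y * (S / mu 1)) • (mu 1 / S) • n (p 1) +
      (w * (S / mu 2)) • (mu 2 / S) • n (p 2) + (0 : ℝ) • (mu 3 / S) • n (p 3) = m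
    rw [smul_smul, smul_smul, smul_smul, hc 0, hc 1, hc 2, zero_smul, add_zero, hxyw]

/-- **the cut lemma** -/
theorem cut (K : Set (Fin 3 → ℝ)) (v : Fin 4 → Fin 3 → ℝ) (b : Fin 4 → ℝ) (hv : ∑ k, v k = 0)
    (hb : ∑ k, b k = 1) (hL : ∀ k, ∀ x ∈ K, pr (v k) x ≤ b k)
    (hspan : ∀ m : Fin 3 → ℝ, ∃ c : Fin 4 → ℝ, ∑ k, c k • v k = m)
    (z m : Fin 3 → ℝ) (hm : m ≠ 0) (hmz : ∀ x ∈ K, pr m x ≤ pr m z)
    (hl : ∀ k, 0 < b k - pr (v k) z) :
    ∃ i k, i ≠ k ∧ ∀ x ∈ K, b k - pr (v k) x ≤ 1 - (b i - pr (v i) z) := by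
  have hpr : ∀ (a : ℝ) (m u : Fin 3 → ℝ), pr (a • m) u = a * pr m u := by
    intro a m u
    unfold pr
    rw [Finset.mul_sum]
    exact Finset.sum_congr rfl (fun i _ => by rw [Pi.smul_apply, smul_eq_mul]; ring)
  have hprs : ∀ (m : Fin 4 → Fin 3 → ℝ) (u : Fin 3 → ℝ), pr (∑ k, m k) u = ∑ k, pr (m k) u := by
    intro m u
    unfold pr
    simp only [Finset.sum_apply, Finset.sum_mul]
    exact Finset.sum_comm
  have hsum0 : ∀ x : Fin 3 → ℝ, ∑ j, pr (v j) x = 0 := by
    intro x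
    rw [← hprs, hv]
    unfold pr
    simp
  obtain ⟨c, hc⟩ := hspan m
  set l : Fin 4 → ℝ := fun k => b k - pr (v k) z with hldef
  have hl1 : ∑ k, l k = 1 := by
    rw [hldef, Finset.sum_sub_distrib, hb, hsum0, sub_zero]
  obtain ⟨i, -, hi⟩ := Finset.exists_max_image Finset.univ c Finset.univ_nonempty
  obtain ⟨k, -, hk⟩ := Finset.exists_min_image Finset.univ c Finset.univ_nonempty
  have hki : c k < c i := by
    by_contra hcon
    have hall : ∀ j, c j = c k := by
      intro j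
      have h1 := hi j (Finset.mem_univ _)
      have h2 := hk j (Finset.mem_univ _)
      linarith
    apply hm
    rw [← hc]
    simp only [hall]
    rw [← Finset.smul_sum, hv, smul_zero]
  have hik : i ≠ k := by
    rintro rfl
    exact lt_irrefl _ hki
  refine ⟨i, k, hik, fun x hx => ?_⟩
  set g : Fin 4 → ℝ := fun j => b j - pr (v j) x with hg
  have hg0 : ∀ j, 0 ≤ g j := fun j => sub_nonneg.2 (hL j x hx)
  have hg1 : ∑ j, g j = 1 := by
    rw [hg, Finset.sum_sub_distrib, hb, hsum0, sub_zero]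
  -- the separation in terms of the slacks
  have hmain : ∑ j, c j * l j ≤ ∑ j, c j * g j := by
    have h1 := hmz x hx
    rw [← hc, hprs, hprs] at h1
    simp only [hpr] at h1
    have h2 : ∑ j, c j * g j - ∑ j, c j * l j = ∑ j, c j * pr (v j) z - ∑ j, c j * pr (v j) x := by
      rw [← Finset.sum_sub_distrib, ← Finset.sum_sub_distrib]
      refine Finset.sum_congr rfl (fun j _ => ?_)
      simp only [hg, hldef]
      ring
    linarith
  -- upper and lower bounds
  have hup : ∑ j, c j * g j ≤ c i - (c i - c k) * g k := by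
    have h1 : ∑ j, (c i - c j) * g j ≥ (c i - c k) * g k :=
      Finset.single_le_sum (f := fun j => (c i - c j) * g j)
        (fun j _ => mul_nonneg (sub_nonneg.2 (hi j (Finset.mem_univ _))) (hg0 j)) (Finset.mem_univ k)
    have h2 : ∑ j, (c i - c j) * g j = c i - ∑ j, c j * g j := by
      simp only [sub_mul, Finset.sum_sub_distrib]
      rw [← Finset.mul_sum, hg1, mul_one]
    linarith
  have hlow : c k + (c i - c k) * l i ≤ ∑ j, c j * l j := by
    have h1 : ∑ j, (c j - c k) * l j ≥ (c i - c k) * l i :=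
      Finset.single_le_sum (f := fun j => (c j - c k) * l j)
        (fun j _ => mul_nonneg (sub_nonneg.2 (hk j (Finset.mem_univ _))) (hl j).le) (Finset.mem_univ i)
    have h2 : ∑ j, (c j - c k) * l j = ∑ j, c j * l j - c k := by
      simp only [sub_mul, Finset.sum_sub_distrib]
      rw [← Finset.mul_sum, hl1, mul_one]
    linarith
  have h3 : (c i - c k) * g k ≤ (c i - c k) * (1 - l i) := by
    linarith
  exact le_of_mul_le_mul_left h3 (sub_pos.2 hki)

end Pool.Agent.Helper1.UB
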