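import Pool.Agent.Helper1.UB.Six

/-! MP_be0fb5, universal bound: generic separations, the nondegenerate balanced chain and the cut lemma. -/

set_option autoImplicit false

namespace Pool.Agent.Helper1.UB

open Matrix Pool.Agent.Helper84.FL
open Pool.Agent.Helper22.Sym (form_sum cs_inv toR)

/-- an open set contains a vector outside finitely many planes through the origin -/
theorem avoid (F : Finset (Fin 3 → ℝ)) : ∀ (O : Set (Fin 3 → ℝ)), IsOpen O → O.Nonempty →
    (∀ q ∈ F, q ≠ 0) → ∃ w ∈ O, ∀ q ∈ F, w ⬝ᵥ q ≠ 0 := by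
  classical
  induction F using Finset.induction_on with
  | empty =>
    intro O _ hne _
    obtain ⟨w, hw⟩ := hne
    exact ⟨w, hw, fun q hq => absurd hq (Finset.notMem_empty q)⟩
  | insert q F hq ih =>
    intro O hO hne hF
    have hq0 : q ≠ 0 := hF q (Finset.mem_insert_self q F)
    have hopen : IsOpen (O ∩ {w | w ⬝ᵥ q ≠ 0}) := by
      refine hO.inter ?_
      refine isOpen_ne_fun ?_ continuous_const
      unfold dotProduct
      fun_prop
    have hne' : (O ∩ {w | w ⬝ᵥ q ≠ 0}).Nonempty := by
      obtain ⟨w0, hw0⟩ := hne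
      by_cases h : w0 ⬝ᵥ q = 0
      · have hcont : ContinuousAt (fun t : ℝ => w0 + t • q) 0 := by fun_prop
        have h1 : (fun t : ℝ => w0 + t • q) 0 ∈ O := by simpa using hw0
        obtain ⟨ε, hε, hball⟩ := Metric.mem_nhds_iff.1 (hcont.preimage_mem_nhds (hO.mem_nhds h1))
        refine ⟨w0 + (ε / 2) • q, hball ?_, ?_⟩
        · rw [Metric.mem_ball, Real.dist_eq, sub_zero, abs_of_pos (by linarith)]
          linarith
        · show (w0 + (ε / 2) • q) ⬝ᵥ q ≠ 0
          rw [add_dotProduct, h, zero_add, smul_dotProduct, smul_eq_mul]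
          have h2 : q ⬝ᵥ q ≠ 0 := by
            rw [Ne, dotProduct_self_eq_zero]
            exact hq0
          exact mul_ne_zero (by linarith) h2
      · exact ⟨w0, hw0, h⟩
    obtain ⟨w, hw, hwF⟩ := ih _ hopen hne' (fun q' hq' => hF q' (Finset.mem_insert_of_mem hq'))
    refine ⟨w, hw.1, fun q' hq' => ?_⟩
    rcases Finset.mem_insert.1 hq' with rfl | h
    · exact hw.2
    · exact hwF q' h

/-- a vector orthogonal to a given one -/
theorem exists_orth (u : Fin 3 → ℝ) : ∃ q : Fin 3 → ℝ, q ≠ 0 ∧ u ⬝ᵥ q = 0 := by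
  by_cases h : u 0 = 0
  · refine ⟨![1, 0, 0], ?_, ?_⟩
    · intro h0
      have := congrFun h0 0
      simp at this
    · simp [dotProduct, Fin.sum_univ_three, h]
  · refine ⟨![-u 1, u 0, 0], ?_, ?_⟩
    · intro h0
      have := congrFun h0 1
      simp at this
      exact h this
    · simp [dotProduct, Fin.sum_univ_three]
      ring

/-- the triple product -/
def tri (a b c : Fin 3 → ℝ) : ℝ := a ⬝ᵥ crossProduct b c

theorem tri_expand (a b c : Fin 3 → ℝ) : tri a b c = a 0 * (b 1 * c 2 - b 2 * c 1) +
    a 1 * (b 2 * c 0 - b 0 * c 2) + a 2 * (b 0 * c 1 - b 1 * c 0) := by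
  unfold tri
  rw [cross_apply]
  simp [dotProduct, Fin.sum_univ_three]

/-- **a generic choice** -/
theorem generic (O : (Fin 3 → ℤ) → Set (Fin 3 → ℝ)) (hO : ∀ z, IsOpen (O z)) (hne : ∀ z, (O z).Nonempty)
    (S : Finset (Fin 3 → ℤ)) : ∃ n : (Fin 3 → ℤ) → (Fin 3 → ℝ), (∀ z, n z ∈ O z) ∧
      (∀ a ∈ S, ∀ b ∈ S, a ≠ b → crossProduct (n a) (n b) ≠ 0) ∧
      (∀ a ∈ S, n a ≠ 0) ∧
      ∀ a ∈ S, ∀ b ∈ S, ∀ c ∈ S, a ≠ b → a ≠ c → b ≠ c → tri (n a) (n b) (n c) ≠ 0 := by
  classical
  induction S using Finset.induction_on with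
  | empty =>
    choose n hn using hne
    exact ⟨n, hn, fun a ha => absurd ha (Finset.notMem_empty a),
      fun a ha => absurd ha (Finset.notMem_empty a), fun a ha => absurd ha (Finset.notMem_empty a)⟩
  | insert z S hz ih =>
    obtain ⟨n, hn, hcr, hn0, htri⟩ := ih
    choose q hq0 hq using exists_orth
    set F : Finset (Fin 3 → ℝ) := (S.image (fun a => q (n a)) ∪
      ((S ×ˢ S).filter (fun p => p.1 ≠ p.2)).image (fun p => crossProduct (n p.1) (n p.2))) ∪
        {![1, 0, 0]} with hF
    obtain ⟨w, hw, hwF⟩ := avoid F (O z) (hO z) (hne z) (by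
      intro r hr
      rw [hF, Finset.mem_union, Finset.mem_union] at hr
      rcases hr with (hr | hr) | hr
      · obtain ⟨a, ha, rfl⟩ := Finset.mem_image.1 hr
        exact hq0 _
      · obtain ⟨p, hp, rfl⟩ := Finset.mem_image.1 hr
        rw [Finset.mem_filter, Finset.mem_product] at hp
        exact hcr _ hp.1.1 _ hp.1.2 hp.2
      · rw [Finset.mem_singleton] at hr
        rw [hr]
        intro h0
        have := congrFun h0 0
        simp at this)
    have hw0 : w ≠ 0 := by
      intro h
      have h1 := hwF ![1, 0, 0] (by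
        rw [hF]
        exact Finset.mem_union_right _ (Finset.mem_singleton_self _))
      rw [h, zero_dotProduct] at h1
      exact h1 rfl
    have hwq : ∀ a ∈ S, w ⬝ᵥ q (n a) ≠ 0 := fun a ha => hwF _ (by
      rw [hF]
      exact Finset.mem_union_left _ (Finset.mem_union_left _ (Finset.mem_image_of_mem _ ha)))
    have hwc : ∀ a ∈ S, ∀ b ∈ S, a ≠ b → w ⬝ᵥ crossProduct (n a) (n b) ≠ 0 := fun a ha b hb hab => hwF _ (by
      rw [hF]
      refine Finset.mem_union_left _ (Finset.mem_union_right _ ?_)
      exact Finset.mem_image.2 ⟨(a, b), Finset.mem_filter.2 ⟨Finset.mem_product.2 ⟨ha, hb⟩, hab⟩, rfl⟩)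
    -- the new vector is not parallel to the old ones
    have hwpar : ∀ a ∈ S, crossProduct w (n a) ≠ 0 := by
      intro a ha h
      apply hwq a ha
      have h0 := congrFun h 0
      have h1 := congrFun h 1
      have h2 := congrFun h 2
      rw [cross_apply] at h0 h1 h2
      simp at h0 h1 h2
      have hd := hq (n a)
      have hna := hn0 a ha
      simp only [dotProduct, Fin.sum_univ_three] at hd ⊢
      set u := n a
      set r := q u
      obtain ⟨j, hj⟩ := Function.ne_iff.1 hna
      have e0 : u 0 * (w 0 * r 0 + w 1 * r 1 + w 2 * r 2) = 0 := by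
        linear_combination w 0 * hd + r 2 * h1 - r 1 * h2
      have e1 : u 1 * (w 0 * r 0 + w 1 * r 1 + w 2 * r 2) = 0 := by
        linear_combination w 1 * hd - r 2 * h0 + r 0 * h2
      have e2 : u 2 * (w 0 * r 0 + w 1 * r 1 + w 2 * r 2) = 0 := by
        linear_combination w 2 * hd + r 1 * h0 - r 0 * h1
      have hj' : u j ≠ 0 := hj
      have e : u j * (w 0 * r 0 + w 1 * r 1 + w 2 * r 2) = 0 := by
        fin_cases j
        · exact e0
        · exact e1
        · exact e2
      exact (mul_eq_zero.1 e).resolve_left hj'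
    set n' : (Fin 3 → ℤ) → (Fin 3 → ℝ) := Function.update n z w with hn'
    have hn'z : n' z = w := by rw [hn', Function.update_self]
    have hn'S : ∀ a ∈ S, n' a = n a := by
      intro a ha
      rw [hn', Function.update_of_ne]
      intro h
      exact hz (h ▸ ha)
    refine ⟨n', ?_, ?_, ?_, ?_⟩
    · intro y
      by_cases h : y = z
      · rw [h, hn'z]; exact hw
      · rw [hn', Function.update_of_ne h]; exact hn y
    · intro a ha b hb hab
      rcases Finset.mem_insert.1 ha with ha' | ha' <;> rcases Finset.mem_insert.1 hb with hb' | hb'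
      · exact absurd (ha'.trans hb'.symm) hab
      · rw [ha', hn'z, hn'S b hb']; exact hwpar b hb'
      · rw [hb', hn'z, hn'S a ha', ← neg_ne_zero, cross_anticomm]; exact hwpar a ha'
      · rw [hn'S a ha', hn'S b hb']; exact hcr a ha' b hb' hab
    · intro a ha
      rcases Finset.mem_insert.1 ha with ha' | ha'
      · rw [ha', hn'z]; exact hw0
      · rw [hn'S a ha']; exact hn0 a ha'
    · intro a ha b hb c hc hab hac hbc
      rcases Finset.mem_insert.1 ha with ha' | ha'
      · rcases Finset.mem_insert.1 hb with hb' | hb'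
        · exact absurd (ha'.trans hb'.symm) hab
        rcases Finset.mem_insert.1 hc with hc' | hc'
        · exact absurd (ha'.trans hc'.symm) hac
        rw [ha', hn'z, hn'S b hb', hn'S c hc']
        exact hwc b hb' c hc' hbc
      · rcases Finset.mem_insert.1 hb with hb' | hb'
        · rcases Finset.mem_insert.1 hc with hc' | hc'
          · exact absurd (hb'.trans hc'.symm) hbc
          rw [hb', hn'z, hn'S a ha', hn'S c hc']
          have h1 := hwc c hc' a ha' (Ne.symm hac)
          have h2 : tri (n a) w (n c) = w ⬝ᵥ crossProduct (n c) (n a) := by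
            show tri (n a) w (n c) = tri w (n c) (n a)
            rw [tri_expand, tri_expand]; ring
          rw [h2]; exact h1
        · rcases Finset.mem_insert.1 hc with hc' | hc'
          · rw [hc', hn'z, hn'S a ha', hn'S b hb']
            have h1 := hwc a ha' b hb' hab
            have h2 : tri (n a) (n b) w = w ⬝ᵥ crossProduct (n a) (n b) := by
              show tri (n a) (n b) w = tri w (n a) (n b)
              rw [tri_expand, tri_expand]; ring
            rw [h2]; exact h1
          · rw [hn'S a ha', hn'S b hb', hn'S c hc']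
            exact htri a ha' b hb' c hc' hab hac hbc

end Pool.Agent.Helper1.UB
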