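import Pool.Agent.Helper1.UB.ChainGen
import Pool.Agent.Helper12.LW.Defs

/-! MP_be0fb5, universal bound: the modules M3 (Kuhn-Sperner) and M4 (cut), and also M1 and M5, in the form of
`LW_Skel`. -/

set_option autoImplicit false

namespace Pool.Agent.Helper1.UB.LW

open Matrix Pool.Agent.Helper12.LW
open Pool.Agent.Helper84.FL (Superbase pz pr labE kv labE_kv)

theorem superbase_of_det (f : Fin 4 → Fin 3 → ℤ) (hf : ∑ l, f l = 0)
    (hdet : IsUnit (Matrix.of ![f 0, f 1, f 2]).det) : Superbase f := by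
  refine ⟨hf, fun z => ?_⟩
  set F : Matrix (Fin 3) (Fin 3) ℤ := Matrix.of ![f 0, f 1, f 2] with hF
  have h1 : (z ᵥ* F⁻¹) ᵥ* F = z := by
    rw [Matrix.vecMul_vecMul, Matrix.nonsing_inv_mul F hdet, Matrix.vecMul_one]
  set c := z ᵥ* F⁻¹ with hc
  refine ⟨![c 0, c 1, c 2, 0], ?_⟩
  funext i
  have h2 := congrFun h1 i
  rw [← h2, Fin.sum_univ_four]
  simp only [Matrix.vecMul, dotProduct, Fin.sum_univ_three, hF, Matrix.of_apply, Matrix.cons_val_zero,
    Matrix.cons_val_one, Matrix.cons_val, Pi.add_apply, Pi.smul_apply, smul_eq_mul, zero_mul,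
    add_zero]

theorem labE_chain (f : Fin 4 → Fin 3 → ℤ) (z : Fin 3 → ℤ) (π : Equiv.Perm (Fin 3)) (k : ℕ)
    (hk : k ≤ 3) : labE f (kv z π k) = labE f z +
      ∑ j : Fin 3, if (j : ℕ) < k then f (π j).castSucc else 0 := by
  induction k with
  | zero =>
    have h1 : kv z π 0 = z := by
      funext i
      simp [kv]
    rw [h1]
    simp
  | succ k ih =>
    rw [labE_kv f z π k (by omega), ih (by omega), add_assoc]
    congr 1
    have h1 : ∑ j : Fin 3, (if (j : ℕ) < k + 1 then f (π j).castSucc else 0) =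
        ∑ j : Fin 3, ((if (j : ℕ) < k then f (π j).castSucc else 0) +
          if j = (⟨k, by omega⟩ : Fin 3) then f (π j).castSucc else 0) := by
      refine Finset.sum_congr rfl (fun j _ => ?_)
      by_cases h1 : (j : ℕ) < k
      · rw [if_pos (by omega), if_pos h1, if_neg (by
          intro h
          rw [h] at h1
          simp at h1), add_zero]
      · by_cases h2 : (j : ℕ) = k
        · rw [if_pos (by omega), if_neg h1, if_pos (Fin.ext h2), zero_add]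
        · rw [if_neg (by omega), if_neg h1, if_neg (by
            intro h
            apply h2
            rw [h]), add_zero]
    rw [h1, Finset.sum_add_distrib, Finset.sum_ite_eq']
    simp

/-- **M3 (Kuhn-Sperner)** for an arbitrary superbase -/
theorem sperner (K : Set (Fin 3 → ℝ)) (hK : LFree K) (f : Fin 4 → Fin 3 → ℤ) (hf : ∑ l, f l = 0)
    (hdet : IsUnit (Matrix.of ![f 0, f 1, f 2]).det) :
    ∃ (z : Fin 3 → ℤ) (σ : Equiv.Perm (Fin 3)) (v : Fin 4 → Fin 3 → ℝ), Sep4 K (chainP f z σ) v := by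
  obtain ⟨n, R, hn0, hsep, hfar⟩ := exists_sep K hK.convex hK.compact.isBounded hK.interior_nonempty
    hK.free
  obtain ⟨z, π, lam, hlam, h1, h2⟩ := chain_core f (superbase_of_det f hf hdet) K hK.interior_nonempty
    n hn0 hsep R hfar
  have hP : ∀ k : Fin 4, chainP f (labE f z) π k = labE f (kv z π k) := by
    intro k
    rw [labE_chain f z π k (by omega)]
    rfl
  have hpz : ∀ (m : Fin 3 → ℝ) (u : Fin 3 → ℤ), m ⬝ᵥ toR u = pz m u := fun _ _ => rfl
  have hpr : ∀ m u : Fin 3 → ℝ, m ⬝ᵥ u = pr m u := fun _ _ => rfl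
  refine ⟨labE f z, π, fun k => lam k • n (labE f (kv z π k)), h1, ?_, ?_⟩
  · rw [← h2]
    refine Finset.sum_congr rfl (fun k _ => ?_)
    rw [hP, smul_dotProduct, smul_eq_mul, hpz]
  · intro k x hx
    rw [hP, smul_dotProduct, smul_dotProduct, smul_eq_mul, smul_eq_mul, hpz, hpr]
    exact mul_le_mul_of_nonneg_left (hsep _ x hx) (hlam k)

/-- large slacks at four points force the separators to span -/
theorem span_of_slack (v : Fin 4 → Fin 3 → ℝ) (b : Fin 4 → ℝ) (hv : ∑ k, v k = 0) (hb : ∑ k, b k = 1)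
    (x : Fin 4 → Fin 3 → ℝ) (h0 : ∀ j k, 0 ≤ b j - pr (v j) (x k))
    (hk : ∀ k, 3 / 4 ≤ b k - pr (v k) (x k)) (m : Fin 3 → ℝ) :
    ∃ c : Fin 4 → ℝ, ∑ k, c k • v k = m := by
  have hsum : ∀ y : Fin 3 → ℝ, ∑ j, (b j - pr (v j) y) = 1 := by
    intro y
    have h2 : ∑ j, pr (v j) y = pr (∑ j, v j) y := by
      unfold Pool.Agent.Helper84.FL.pr
      rw [Finset.sum_comm]
      refine Finset.sum_congr rfl (fun i _ => ?_)
      rw [Finset.sum_apply, Finset.sum_mul]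
    rw [Finset.sum_sub_distrib, hb, h2, hv]
    unfold Pool.Agent.Helper84.FL.pr
    simp
  set N : Matrix (Fin 4) (Fin 4) ℝ := Matrix.of fun j => ![b j, -v j 0, -v j 1, -v j 2] with hN
  set X : Matrix (Fin 4) (Fin 4) ℝ := Matrix.of fun i k => (![1, x k 0, x k 1, x k 2] : Fin 4 → ℝ) i
    with hX
  have hNX : ∀ j k, (N * X) j k = b j - pr (v j) (x k) := by
    intro j k
    rw [Matrix.mul_apply, Fin.sum_univ_four]
    simp only [hN, hX, Matrix.of_apply, Matrix.cons_val_zero, Matrix.cons_val_one, Matrix.cons_val]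
    unfold Pool.Agent.Helper84.FL.pr
    rw [Fin.sum_univ_three]
    ring
  have hdet : (N * X).det ≠ 0 := by
    apply det_ne_zero_of_sum_col_lt_diag
    intro k
    have h1 : ∑ i ∈ Finset.univ.erase k, ‖(N * X) i k‖ = ∑ i ∈ Finset.univ.erase k, (b i - pr (v i) (x k)) := by
      refine Finset.sum_congr rfl (fun i _ => ?_)
      rw [hNX, Real.norm_eq_abs, abs_of_nonneg (h0 i k)]
    have h2 := hsum (x k)
    rw [← Finset.add_sum_erase _ _ (Finset.mem_univ k)] at h2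
    have h3 := hk k
    rw [h1, hNX, Real.norm_eq_abs, abs_of_nonneg (h0 k k)]
    linarith
  have hNdet : IsUnit N.det := by
    rw [isUnit_iff_ne_zero]
    intro h
    rw [Matrix.det_mul, h, zero_mul] at hdet
    exact hdet rfl
  set r : Fin 4 → ℝ := ![0, -m 0, -m 1, -m 2] with hr
  have h1 : (r ᵥ* N⁻¹) ᵥ* N = r := by
    rw [Matrix.vecMul_vecMul, Matrix.nonsing_inv_mul N hNdet, Matrix.vecMul_one]
  set c := r ᵥ* N⁻¹ with hc
  refine ⟨c, ?_⟩
  have e : ∀ i : Fin 4, ∑ j, c j * N j i = r i := fun i => congrFun h1 i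
  funext i
  rw [Finset.sum_apply]
  simp only [Pi.smul_apply, smul_eq_mul]
  fin_cases i
  · have h2 := e 1
    simp only [hN, hr, Matrix.of_apply, Matrix.cons_val_one, Matrix.cons_val_zero, mul_neg,
      Finset.sum_neg_distrib, neg_inj] at h2
    exact h2
  · have h2 := e 2
    simp only [hN, hr, Matrix.of_apply, Matrix.cons_val, mul_neg, Finset.sum_neg_distrib, neg_inj] at h2
    exact h2
  · have h2 := e 3
    simp only [hN, hr, Matrix.of_apply, Matrix.cons_val, mul_neg, Finset.sum_neg_distrib, neg_inj] at h2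
    exact h2

/-- **M4 (cut)**: `K` misses the lattice point `z`. -/
theorem cut (K : Set (Fin 3 → ℝ)) (hK : LFree K) (P : Fin 4 → Fin 3 → ℤ) (v : Fin 4 → Fin 3 → ℝ)
    (hv : Sep4 K P v) (z : Fin 3 → ℤ) (ρ : Fin 4 → ℝ) (hρ : ∀ k, 3 / 4 ≤ ρ k)
    (x : Fin 4 → Fin 3 → ℝ) (hx : ∀ k, x k ∈ K) (hxρ : ∀ k, ρ k ≤ v k ⬝ᵥ (toR (P k) - x k)) :
    ∃ i k : Fin 4, i ≠ k ∧ v i ⬝ᵥ (toR (P i) - toR z) ≤ 1 - ρ k := by
  obtain ⟨n, R, hn0, hsep, -⟩ := exists_sep K hK.convex hK.compact.isBounded hK.interior_nonempty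
    hK.free
  set b : Fin 4 → ℝ := fun k => pz (v k) (P k) with hbdef
  have hL : ∀ k, ∀ y ∈ K, pr (v k) y ≤ b k := fun k y hy => hv.sep k y hy
  have hslack : ∀ (k : Fin 4) (y : Fin 3 → ℝ), v k ⬝ᵥ (toR (P k) - y) = b k - pr (v k) y := by
    intro k y
    rw [dotProduct_sub]
    rfl
  have h0 : ∀ j k, 0 ≤ b j - pr (v j) (x k) := fun j k => sub_nonneg.2 (hL j _ (hx k))
  have hk : ∀ k, ρ k ≤ b k - pr (v k) (x k) := by
    intro k
    have := hxρ k
    rwa [hslack] at this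
  have hspan := span_of_slack v b hv.sum_zero hv.norm_one x h0 (fun k => (hρ k).trans (hk k))
  by_contra hcon
  push Not at hcon
  have hρ1 : ∀ k, ρ k ≤ 1 := by
    intro k
    have hsum : ∑ j, (b j - pr (v j) (x k)) = 1 := by
      have h2 : ∑ j, pr (v j) (x k) = pr (∑ j, v j) (x k) := by
        unfold Pool.Agent.Helper84.FL.pr
        rw [Finset.sum_comm]
        refine Finset.sum_congr rfl (fun i _ => ?_)
        rw [Finset.sum_apply, Finset.sum_mul]
      have h3 : ∑ j, b j = 1 := hv.norm_one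
      rw [Finset.sum_sub_distrib, h3, h2, hv.sum_zero]
      unfold Pool.Agent.Helper84.FL.pr
      simp
    refine (hk k).trans ?_
    rw [← hsum]
    exact Finset.single_le_sum (f := fun j => b j - pr (v j) (x k)) (fun j _ => h0 j k)
      (Finset.mem_univ k)
  have hl : ∀ i, 0 < b i - pr (v i) (toR z) := by
    intro i
    have h1 : i ≠ i + 1 := by
      have h9 : ∀ i : Fin 4, i ≠ i + 1 := by decide
      exact h9 i
    have h2 := hcon i (i + 1) h1
    rw [hslack] at h2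
    have := hρ1 (i + 1)
    linarith
  obtain ⟨i, k, hik, hcut⟩ := Pool.Agent.Helper1.UB.cut K v b hv.sum_zero hv.norm_one hL hspan (toR z)
    (n z) (hn0 z) (fun y hy => hsep z y hy) hl
  have h1 := hcut (x k) (hx k)
  have h2 := hcon i k hik
  rw [hslack] at h2
  have h3 := hk k
  linarith

/-- **M5 (feasibility)**: the weighted slack form. -/
theorem feas (K : Set (Fin 3 → ℝ)) (P : Fin 4 → Fin 3 → ℤ) (v : Fin 4 → Fin 3 → ℝ)
    (hv : Sep4 K P v) (k : Fin 4) (ρ : ℝ) (hρ0 : 0 < ρ) (hρ1 : ρ ≤ 1)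
    (hk : ∀ x ∈ K, v k ⬝ᵥ (toR (P k) - x) ≤ ρ) :
    ∀ x ∈ K, ∀ x' ∈ K, ∑ j, (if j = k then (2 - ρ) / (2 * ρ) else 1 / 2) * (v j ⬝ᵥ (x - x')) ^ 2 ≤ 1 := by
  intro x hx x' hx'
  have hsum : ∀ y : Fin 3 → ℝ, ∑ j, v j ⬝ᵥ (toR (P j) - y) = 1 := by
    intro y
    have h2 : ∑ j, v j ⬝ᵥ y = (∑ j, v j) ⬝ᵥ y := by
      simp only [dotProduct, Finset.sum_apply, Finset.sum_mul]
      exact Finset.sum_comm
    simp only [dotProduct_sub]
    rw [Finset.sum_sub_distrib, hv.norm_one, h2, hv.sum_zero, zero_dotProduct, sub_zero]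
  have h := cut_ineq (fun j => v j ⬝ᵥ (toR (P j) - x)) (fun j => v j ⬝ᵥ (toR (P j) - x')) k ρ hρ0 hρ1
    (fun j => by
      rw [dotProduct_sub]
      exact sub_nonneg.2 (hv.sep j x hx))
    (fun j => by
      rw [dotProduct_sub]
      exact sub_nonneg.2 (hv.sep j x' hx')) (hsum x) (hsum x') (hk x hx) (hk x' hx')
  have e : ∀ j, v j ⬝ᵥ (toR (P j) - x) - v j ⬝ᵥ (toR (P j) - x') = -(v j ⬝ᵥ (x - x')) := by
    intro j
    simp only [dotProduct_sub]
    ring
  simp only [e, neg_sq] at h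
  have e2 : ∀ j, (if j = k then (2 - ρ) / (2 * ρ) else 1 / 2) * (v j ⬝ᵥ (x - x')) ^ 2 =
      1 / 2 * (v j ⬝ᵥ (x - x')) ^ 2 + if j = k then (1 - ρ) / ρ * (v j ⬝ᵥ (x - x')) ^ 2 else 0 := by
    intro j
    split_ifs
    · field_simp
      ring
    · ring
  simp only [e2]
  rw [Finset.sum_add_distrib, ← Finset.mul_sum, Finset.sum_ite_eq']
  simpa using h

/-- **M1 (Loewner)**: position of the body. -/
theorem loewner (K : Set (Fin 3 → ℝ)) (hK : LFree K) :
    ∃ A : Matrix (Fin 3) (Fin 3) ℝ, A.PosDef ∧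
      (∀ y : Fin 3 → ℝ, ∀ x ∈ K, ∀ x' ∈ K, (y ⬝ᵥ (x - x')) ^ 2 ≤ qf A y) ∧ PosAt K A 3 := by
  set D : Set (Fin 3 → ℝ) := {d | ∃ x ∈ K, ∃ x' ∈ K, d = x - x'} with hD
  have hDb : Bornology.IsBounded D := by
    obtain ⟨R, hR⟩ := hK.compact.isBounded.exists_norm_le
    rw [isBounded_iff_forall_norm_le]
    refine ⟨R + R, ?_⟩
    rintro d ⟨x, hx, x', hx', rfl⟩
    exact (norm_sub_le _ _).trans (add_le_add (hR x hx) (hR x' hx'))
  have hD0 : (0 : Fin 3 → ℝ) ∈ interior D := by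
    obtain ⟨x0, hx0⟩ := hK.interior_nonempty
    have hxK : x0 ∈ K := interior_subset hx0
    rw [mem_interior_iff_mem_nhds, Metric.mem_nhds_iff] at hx0 ⊢
    obtain ⟨ε, hε, hb⟩ := hx0
    refine ⟨ε, hε, fun d hd => ⟨x0 + d, hb ?_, x0, hxK, by simp⟩⟩
    rw [Metric.mem_ball, dist_eq_norm] at hd ⊢
    simpa using hd
  obtain ⟨Q, hQ, hQD, hopt⟩ := Pool.Agent.Helper1.UB.loewner D hDb hD0
  refine ⟨Q⁻¹, hQ.inv, ?_, ?_⟩
  · intro y x hx x' hx'
    have h1 := Pool.Agent.Helper22.Sym.cs_inv Q hQ y (x - x')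
    have h2 := hQD _ ⟨x, hx, x', hx', rfl⟩
    have h4 : 0 ≤ y ⬝ᵥ Q⁻¹ *ᵥ y := by
      have := hQ.inv.posSemidef.dotProduct_mulVec_nonneg y
      simpa using this
    show (y ⬝ᵥ (x - x')) ^ 2 ≤ y ⬝ᵥ Q⁻¹ *ᵥ y
    nlinarith
  · intro a v ha hav
    have h := hopt (∑ j, a j • vecMulVec (v j) (v j)) (psd_B a ha v) (by
      rintro d ⟨x, hx, x', hx', rfl⟩
      rw [form_B]
      exact hav x hx x' hx')
    rw [trace_B] at h
    exact h

end Pool.Agent.Helper1.UB.LW
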