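import Pool.Agent.Helper1.UB.Chain
import Pool.Agent.Helper22.Sym.Pos

/-! MP_be0fb5, universal bound, step (1): the Loewner position of the difference body. -/

set_option autoImplicit false

namespace Pool.Agent.Helper1.UB

open Matrix
open Pool.Agent.Helper22.Sym (form_sum cs_inv)

/-- the quadratic forms which are at most one on a set -/
def LF (D : Set (Fin 3 → ℝ)) : Set (Fin 3 → Fin 3 → ℝ) :=
  {p | (∀ i j, p i j = p j i) ∧ (∀ v : Fin 3 → ℝ, 0 ≤ ∑ i, ∑ j, p i j * v i * v j) ∧
    ∀ d ∈ D, ∑ i, ∑ j, p i j * d i * d j ≤ 1}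

theorem LF_closed (D : Set (Fin 3 → ℝ)) : IsClosed (LF D) := by
  have e : LF D = (⋂ i, ⋂ j, {p : Fin 3 → Fin 3 → ℝ | p i j = p j i}) ∩
      ((⋂ v : Fin 3 → ℝ, {p : Fin 3 → Fin 3 → ℝ | 0 ≤ ∑ i, ∑ j, p i j * v i * v j}) ∩
      ⋂ d : Fin 3 → ℝ, ⋂ _ : d ∈ D,
        {p : Fin 3 → Fin 3 → ℝ | ∑ i, ∑ j, p i j * d i * d j ≤ 1}) := by
    ext p
    simp only [LF, Set.mem_ofPred_eq, Set.mem_inter_iff, Set.mem_iInter]
  rw [e]
  refine IsClosed.inter ?_ (IsClosed.inter ?_ ?_)
  · refine isClosed_iInter fun i => isClosed_iInter fun j => ?_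
    exact isClosed_eq (by fun_prop) (by fun_prop)
  · refine isClosed_iInter fun v => ?_
    exact isClosed_le (by fun_prop) (by fun_prop)
  · refine isClosed_iInter fun y => isClosed_iInter fun _ => ?_
    exact isClosed_le (by fun_prop) (by fun_prop)

theorem LF_bound (D : Set (Fin 3 → ℝ)) (r : ℝ) (hr : 0 < r)
    (hD : ∀ i, (Pi.single i r : Fin 3 → ℝ) ∈ D) (p : Fin 3 → Fin 3 → ℝ) (hp : p ∈ LF D) :
    ∀ i j, |p i j| ≤ 1 / r ^ 2 := by
  obtain ⟨h1, h2, h3⟩ := hp
  have hdiag : ∀ i, p i i * r ^ 2 ≤ 1 := by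
    intro i
    have := h3 _ (hD i)
    have e2 : ∑ a, ∑ b, p a b * (Pi.single i r : Fin 3 → ℝ) a * (Pi.single i r : Fin 3 → ℝ) b
        = p i i * r ^ 2 := by
      simp [Pi.single_apply]
      ring
    rwa [e2] at this
  intro i j
  have a := h2 (Pi.single i 1 + Pi.single j 1)
  have b := h2 (Pi.single i 1 - Pi.single j 1)
  have e1 : ∑ a, ∑ b, p a b * (Pi.single i 1 + Pi.single j 1 : Fin 3 → ℝ) a *
      (Pi.single i 1 + Pi.single j 1 : Fin 3 → ℝ) b = p i i + p j j + 2 * p i j := by
    have hij := h1 j i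
    simp only [Pi.add_apply, mul_add, add_mul, Finset.sum_add_distrib]
    simp [Pi.single_apply]
    linarith
  have e2 : ∑ a, ∑ b, p a b * (Pi.single i 1 - Pi.single j 1 : Fin 3 → ℝ) a *
      (Pi.single i 1 - Pi.single j 1 : Fin 3 → ℝ) b = p i i + p j j - 2 * p i j := by
    have hij := h1 j i
    simp only [Pi.sub_apply, mul_sub, sub_mul, Finset.sum_sub_distrib]
    simp [Pi.single_apply]
    linarith
  rw [e1] at a
  rw [e2] at b
  have d1 := hdiag i
  have d2 := hdiag j
  have hr2 : 0 < r ^ 2 := by positivity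
  rw [le_div_iff₀ hr2]
  rcases abs_cases (p i j) with ⟨h, _⟩ | ⟨h, _⟩ <;> rw [h] <;> nlinarith

/-- the determinant on a segment -/
theorem det_segment (A B : Matrix (Fin 3) (Fin 3) ℝ) (s t : ℝ) :
    (s • A + t • B).det = s ^ 3 * A.det + s ^ 2 * t * (B * A.adjugate).trace +
      s * t ^ 2 * (A * B.adjugate).trace + t ^ 3 * B.det := by
  simp [Matrix.det_fin_three, Matrix.adjugate_fin_three, Matrix.trace, Matrix.mul_apply,
    Fin.sum_univ_three]
  ring

/-- **step (1)**: the Loewner position -/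
theorem loewner (D : Set (Fin 3 → ℝ)) (hb : Bornology.IsBounded D) (h0 : (0 : Fin 3 → ℝ) ∈ interior D) :
    ∃ Q : Matrix (Fin 3) (Fin 3) ℝ, Q.PosDef ∧ (∀ d ∈ D, d ⬝ᵥ Q *ᵥ d ≤ 1) ∧
      ∀ B : Matrix (Fin 3) (Fin 3) ℝ, B.PosSemidef → (∀ d ∈ D, d ⬝ᵥ B *ᵥ d ≤ 1) →
        (B * Q⁻¹).trace ≤ 3 := by
  obtain ⟨r, hr, hball⟩ : ∃ r : ℝ, 0 < r ∧ ∀ i, (Pi.single i r : Fin 3 → ℝ) ∈ D := by
    rw [mem_interior_iff_mem_nhds, Metric.mem_nhds_iff] at h0
    obtain ⟨ε, hε, hb⟩ := h0
    refine ⟨ε / 2, by positivity, fun i => hb ?_⟩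
    rw [Metric.mem_ball, dist_pi_lt_iff hε]
    intro j
    rw [Real.dist_eq, Pi.zero_apply, sub_zero, Pi.single_apply]
    split_ifs
    · rw [abs_of_pos (by positivity)]; linarith
    · rw [abs_zero]; exact hε
  have hcomp : IsCompact (LF D) := by
    refine Metric.isCompact_of_isClosed_isBounded (LF_closed D) ?_
    rw [isBounded_iff_forall_norm_le]
    refine ⟨1 / r ^ 2, fun p hp => ?_⟩
    rw [pi_norm_le_iff_of_nonneg (by positivity)]
    intro i
    rw [pi_norm_le_iff_of_nonneg (by positivity)]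
    intro j
    rw [Real.norm_eq_abs]
    exact LF_bound D r hr hball p hp i j
  -- a small multiple of the identity
  obtain ⟨R, hR⟩ := hb.exists_norm_le
  set ρ : ℝ := 1 / (3 * (|R| + 1) ^ 2) with hρ
  have hR1 : 0 < |R| + 1 := by positivity
  have hρ0 : 0 < ρ := by positivity
  set p0 : Fin 3 → Fin 3 → ℝ := fun i j => if i = j then ρ else 0 with hp0
  have hp0s : ∀ v : Fin 3 → ℝ, ∑ i, ∑ j, p0 i j * v i * v j = ρ * (v 0 ^ 2 + v 1 ^ 2 + v 2 ^ 2) := by
    intro v
    simp [hp0, Fin.sum_univ_three]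
    ring
  have hp0F : p0 ∈ LF D := by
    refine ⟨fun i j => by simp [hp0, eq_comm], fun v => ?_, fun d hd => ?_⟩
    · rw [hp0s]; positivity
    · rw [hp0s]
      have hcoord : ∀ i, d i ^ 2 ≤ (|R| + 1) ^ 2 := by
        intro i
        have h1 := norm_le_pi_norm d i
        rw [Real.norm_eq_abs] at h1
        have h2 := hR d hd
        have h3 := le_abs_self R
        rw [← sq_abs (d i)]
        exact pow_le_pow_left₀ (abs_nonneg _) (by linarith) 2
      have h1 := hcoord 0
      have h2 := hcoord 1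
      have h3 := hcoord 2
      have h4 : ρ * (3 * (|R| + 1) ^ 2) = 1 := by
        rw [hρ]
        field_simp
      rw [← h4]
      exact mul_le_mul_of_nonneg_left (by linarith) hρ0.le
  obtain ⟨p, hpF, hpmax⟩ := hcomp.exists_isMaxOn ⟨p0, hp0F⟩
    (f := fun p : Fin 3 → Fin 3 → ℝ => (Matrix.of p).det) (by
      apply Continuous.continuousOn
      simp only [Matrix.det_fin_three, Matrix.of_apply]
      fun_prop)
  have hmax : ∀ q ∈ LF D, (Matrix.of q).det ≤ (Matrix.of p).det := fun q hq => hpmax hq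
  have hdet0 : 0 < (Matrix.of p).det := by
    refine lt_of_lt_of_le ?_ (hmax p0 hp0F)
    have : (Matrix.of p0).det = ρ ^ 3 := by
      simp [hp0, Matrix.det_fin_three]; ring
    rw [this]; positivity
  set A : Matrix (Fin 3) (Fin 3) ℝ := Matrix.of p with hA
  have hAherm : A.IsHermitian := by
    ext i j
    simp only [Matrix.conjTranspose_apply, star_trivial, hA, Matrix.of_apply]
    exact hpF.1 j i
  have hApsd : A.PosSemidef := by
    refine Matrix.PosSemidef.of_dotProduct_mulVec_nonneg hAherm fun v => ?_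
    have := hpF.2.1 v
    rw [form_sum] at this
    simpa using this
  have hApd : A.PosDef := by
    refine (Matrix.PosSemidef.posDef_iff_isUnit hApsd).2 ?_
    rw [Matrix.isUnit_iff_isUnit_det, isUnit_iff_ne_zero]
    exact hdet0.ne'
  refine ⟨A, hApd, ?_, ?_⟩
  · intro d hd
    have := hpF.2.2 d hd
    rwa [form_sum] at this
  · intro B hB hBD
    have hBs : ∀ i j, B i j = B j i := by
      intro i j
      have h1 := congrFun (congrFun hB.1 i) j
      rw [Matrix.conjTranspose_apply, star_trivial] at h1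
      exact h1.symm
    have hin : ∀ τ : ℝ, 0 ≤ τ → τ ≤ 1 → ((1 - τ) • A + τ • B).det ≤ A.det := by
      intro τ h0 h1
      have hq : (fun i j => (1 - τ) * p i j + τ * B i j : Fin 3 → Fin 3 → ℝ) ∈ LF D := by
        refine ⟨fun i j => ?_, fun v => ?_, fun d hd => ?_⟩
        · simp only
          rw [hpF.1 i j, hBs i j]
        · have h2 := hpF.2.1 v
          have h3 : 0 ≤ v ⬝ᵥ B *ᵥ v := by
            have := hB.dotProduct_mulVec_nonneg v
            simpa using this
          have e1 : ∑ i, ∑ j, ((1 - τ) * p i j + τ * B i j) * v i * v j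
              = (1 - τ) * (∑ i, ∑ j, p i j * v i * v j) + τ * (v ⬝ᵥ B *ᵥ v) := by
            simp only [dotProduct, Matrix.mulVec, Fin.sum_univ_three]; ring
          simp only
          rw [e1]
          have := mul_nonneg (by linarith : (0:ℝ) ≤ 1 - τ) h2
          have := mul_nonneg h0 h3
          linarith
        · have h2 := hpF.2.2 d hd
          have h3 := hBD d hd
          have e1 : ∑ i, ∑ j, ((1 - τ) * p i j + τ * B i j) * d i * d j
              = (1 - τ) * (∑ i, ∑ j, p i j * d i * d j) + τ * (d ⬝ᵥ B *ᵥ d) := by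
            simp only [dotProduct, Matrix.mulVec, Fin.sum_univ_three]; ring
          simp only
          rw [e1]
          have a := mul_le_mul_of_nonneg_left h2 (by linarith : (0:ℝ) ≤ 1 - τ)
          have b := mul_le_mul_of_nonneg_left h3 h0
          linarith
      have h4 := hmax _ hq
      have e2 : (Matrix.of (fun i j => (1 - τ) * p i j + τ * B i j))
          = (1 - τ) • A + τ • B := by
        ext i j
        simp only [Matrix.of_apply, Matrix.add_apply, Matrix.smul_apply, hA, smul_eq_mul]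
      rw [e2] at h4
      exact h4
    have hopt : (B * A.adjugate).trace ≤ 3 * A.det := by
      by_contra hcon
      push Not at hcon
      set b := (B * A.adjugate).trace with hb'
      set c := (A * B.adjugate).trace with hc'
      set a := A.det with ha'
      set d := B.det with hd'
      set δ := b - 3 * a with hδ
      have hδ0 : 0 < δ := by rw [hδ]; linarith
      set e1 := 3 * a - 2 * b + c with he1
      set e2 := -a + b - c + d with he2
      set τ := min 1 (δ / (2 * (|e1| + |e2| + 1))) with hτ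
      have hden : 0 < 2 * (|e1| + |e2| + 1) := by positivity
      have hτ0 : 0 < τ := by
        rw [hτ]
        exact lt_min one_pos (div_pos hδ0 hden)
      have hτ1 : τ ≤ 1 := min_le_left _ _
      have hτ2 : τ * (2 * (|e1| + |e2| + 1)) ≤ δ := by
        have : τ ≤ δ / (2 * (|e1| + |e2| + 1)) := min_le_right _ _
        rwa [le_div_iff₀ hden] at this
      have h5 := hin τ hτ0.le hτ1
      rw [det_segment] at h5
      have h6 : (1 - τ) ^ 3 * a + (1 - τ) ^ 2 * τ * b + (1 - τ) * τ ^ 2 * c + τ ^ 3 * d - a =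
          τ * (δ + τ * e1 + τ ^ 2 * e2) := by
        rw [hδ, he1, he2]; ring
      have h7 : 0 < δ + τ * e1 + τ ^ 2 * e2 := by
        have a1 : -(τ * |e1|) ≤ τ * e1 := by
          have := neg_abs_le e1
          nlinarith
        have a2 : -(τ * |e2|) ≤ τ ^ 2 * e2 := by
          have h8 := neg_abs_le e2
          have h9 : τ ^ 2 ≤ τ := by nlinarith
          have h10 : -(τ ^ 2 * |e2|) ≤ τ ^ 2 * e2 := by nlinarith [sq_nonneg τ]
          have h11 : τ ^ 2 * |e2| ≤ τ * |e2| := mul_le_mul_of_nonneg_right h9 (abs_nonneg _)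
          linarith
        nlinarith
      have h8 := mul_pos hτ0 h7
      linarith
    have hinv : A⁻¹ = A.det⁻¹ • A.adjugate := by
      rw [Matrix.inv_def, Ring.inverse_eq_inv']
    rw [hinv, Matrix.mul_smul, Matrix.trace_smul, smul_eq_mul]
    rw [inv_mul_le_iff₀ hdet0]
    linarith

end Pool.Agent.Helper1.UB
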