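import Pool.Agent.Helper1.UB.Loewner
import Pool.Agent.Helper22.Sym.Selling

/-! MP_be0fb5, universal bound, step (1) for a body and the inequality for the slacks. -/

set_option autoImplicit false

namespace Pool.Agent.Helper1.UB

open Matrix Pool.Agent.Helper84.FL
open Pool.Agent.Helper22.Sym (form_sum cs_inv toR)

/-- **step (1) for a body**: the form, the width and the optimality -/
theorem loewner_body (K : Set (Fin 3 → ℝ)) (hKb : Bornology.IsBounded K) (hint : (interior K).Nonempty)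
    (W : ℝ) (hW : 0 ≤ W) (hw : ¬ WidthLe K W) :
    ∃ Q : Matrix (Fin 3) (Fin 3) ℝ, Q.PosDef ∧
      (∀ x ∈ K, ∀ x' ∈ K, (x - x') ⬝ᵥ Q *ᵥ (x - x') ≤ 1) ∧
      (∀ y : Fin 3 → ℤ, y ≠ 0 → W ^ 2 ≤ toR y ⬝ᵥ Q⁻¹ *ᵥ toR y) ∧
      ∀ B : Matrix (Fin 3) (Fin 3) ℝ, B.PosSemidef →
        (∀ x ∈ K, ∀ x' ∈ K, (x - x') ⬝ᵥ B *ᵥ (x - x') ≤ 1) → (B * Q⁻¹).trace ≤ 3 := by
  set D : Set (Fin 3 → ℝ) := {d | ∃ x ∈ K, ∃ x' ∈ K, d = x - x'} with hD
  have hDb : Bornology.IsBounded D := by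
    obtain ⟨R, hR⟩ := hKb.exists_norm_le
    rw [isBounded_iff_forall_norm_le]
    refine ⟨R + R, ?_⟩
    rintro d ⟨x, hx, x', hx', rfl⟩
    exact (norm_sub_le _ _).trans (add_le_add (hR x hx) (hR x' hx'))
  have hD0 : (0 : Fin 3 → ℝ) ∈ interior D := by
    obtain ⟨x0, hx0⟩ := hint
    have hxK : x0 ∈ K := interior_subset hx0
    rw [mem_interior_iff_mem_nhds, Metric.mem_nhds_iff] at hx0 ⊢
    obtain ⟨ε, hε, hb⟩ := hx0
    refine ⟨ε, hε, fun d hd => ⟨x0 + d, hb ?_, x0, hxK, by simp⟩⟩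
    rw [Metric.mem_ball, dist_eq_norm] at hd ⊢
    simpa using hd
  obtain ⟨Q, hQ, hQD, hopt⟩ := loewner D hDb hD0
  refine ⟨Q, hQ, fun x hx x' hx' => hQD _ ⟨x, hx, x', hx', rfl⟩, ?_, ?_⟩
  · intro y hy
    unfold WidthLe at hw
    push Not at hw
    obtain ⟨x, hx, x', hx', hlt⟩ := hw y hy
    have h1 := cs_inv Q hQ (toR y) (x - x')
    have h2 := hQD _ ⟨x, hx, x', hx', rfl⟩
    have h3 : toR y ⬝ᵥ (x - x') = ∑ i, (x i - x' i) * (y i : ℝ) := by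
      simp only [dotProduct, toR, Pi.sub_apply]
      exact Finset.sum_congr rfl (fun i _ => mul_comm _ _)
    rw [← h3] at hlt
    have h4 : 0 ≤ toR y ⬝ᵥ Q⁻¹ *ᵥ toR y := by
      have := hQ.inv.posSemidef.dotProduct_mulVec_nonneg (toR y)
      simpa using this
    have h5 : W ^ 2 ≤ (toR y ⬝ᵥ (x - x')) ^ 2 := pow_le_pow_left₀ hW hlt.le 2
    nlinarith
  · intro B hB hBK
    apply hopt B hB
    rintro d ⟨x, hx, x', hx', rfl⟩
    exact hBK x hx x' hx'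

/-- a sum of squares of linear forms -/
theorem form_B (c : Fin 4 → ℝ) (v : Fin 4 → Fin 3 → ℝ) (d : Fin 3 → ℝ) :
    d ⬝ᵥ (∑ j, c j • vecMulVec (v j) (v j)) *ᵥ d = ∑ j, c j * (v j ⬝ᵥ d) ^ 2 := by
  simp only [Fin.sum_univ_four, dotProduct, Matrix.mulVec, Fin.sum_univ_three, Matrix.add_apply,
    Matrix.smul_apply, vecMulVec_apply, smul_eq_mul]
  ring

theorem trace_B (c : Fin 4 → ℝ) (v : Fin 4 → Fin 3 → ℝ) (P : Matrix (Fin 3) (Fin 3) ℝ) :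
    ((∑ j, c j • vecMulVec (v j) (v j)) * P).trace = ∑ j, c j * (v j ⬝ᵥ P *ᵥ v j) := by
  rw [Finset.sum_mul, Matrix.trace_sum]
  refine Finset.sum_congr rfl (fun j _ => ?_)
  rw [Matrix.smul_mul, Matrix.trace_smul, smul_eq_mul]
  congr 1
  simp only [Matrix.trace, Matrix.diag_apply, Matrix.mul_apply, dotProduct, Matrix.mulVec,
    Fin.sum_univ_three, vecMulVec_apply]
  ring

theorem psd_B (c : Fin 4 → ℝ) (hc : ∀ j, 0 ≤ c j) (v : Fin 4 → Fin 3 → ℝ) :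
    (∑ j, c j • vecMulVec (v j) (v j)).PosSemidef := by
  refine Matrix.PosSemidef.of_dotProduct_mulVec_nonneg ?_ fun x => ?_
  · ext i j
    simp only [Matrix.conjTranspose_apply, star_trivial, Matrix.sum_apply, Matrix.smul_apply,
      vecMulVec_apply, smul_eq_mul]
    exact Finset.sum_congr rfl (fun k _ => by ring)
  · rw [star_trivial, form_B]
    exact Finset.sum_nonneg (fun j _ => mul_nonneg (hc j) (sq_nonneg _))

/-- the squares of nonnegative numbers -/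
theorem sum_sq_le (s : Finset (Fin 4)) (a : Fin 4 → ℝ) (ha : ∀ j, 0 ≤ a j) :
    ∑ j ∈ s, a j ^ 2 ≤ (∑ j ∈ s, a j) ^ 2 := by
  rw [sq (∑ j ∈ s, a j), Finset.sum_mul]
  refine Finset.sum_le_sum (fun j hj => ?_)
  rw [sq]
  exact mul_le_mul_of_nonneg_left (Finset.single_le_sum (fun i _ => ha i) hj) (ha j)

/-- two points of the standard simplex with bounded coordinate `k` -/
theorem cut_ineq (a b : Fin 4 → ℝ) (k : Fin 4) (ρ : ℝ) (h0 : 0 < ρ) (h1 : ρ ≤ 1)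
    (ha : ∀ j, 0 ≤ a j) (hb : ∀ j, 0 ≤ b j) (hsa : ∑ j, a j = 1) (hsb : ∑ j, b j = 1)
    (hka : a k ≤ ρ) (hkb : b k ≤ ρ) :
    1 / 2 * ∑ j, (a j - b j) ^ 2 + (1 - ρ) / ρ * (a k - b k) ^ 2 ≤ 1 := by
  have e1 : ∑ j ∈ Finset.univ.erase k, a j = 1 - a k := by
    rw [← hsa, ← Finset.add_sum_erase _ _ (Finset.mem_univ k)]; ring
  have e2 : ∑ j ∈ Finset.univ.erase k, b j = 1 - b k := by
    rw [← hsb, ← Finset.add_sum_erase _ _ (Finset.mem_univ k)]; ring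
  have e3 : ∑ j ∈ Finset.univ.erase k, (a j - b j) ^ 2 ≤ (1 - a k) ^ 2 + (1 - b k) ^ 2 := by
    rw [← e1, ← e2]
    refine le_trans ?_ (add_le_add (sum_sq_le _ a ha) (sum_sq_le _ b hb))
    rw [← Finset.sum_add_distrib]
    refine Finset.sum_le_sum (fun j _ => ?_)
    nlinarith [mul_nonneg (ha j) (hb j)]
  rw [← Finset.add_sum_erase _ _ (Finset.mem_univ k)]
  have key : ∀ t t' : ℝ, 0 ≤ t' → t' ≤ t → t ≤ ρ →
      1 / 2 * ((t - t') ^ 2 + ((1 - t) ^ 2 + (1 - t') ^ 2)) + (1 - ρ) / ρ * (t - t') ^ 2 ≤ 1 := by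
    intro t t' ht' htt ht
    have h2 : (1 - ρ) / ρ * (t - t') ^ 2 ≤ (1 - ρ) * (t - t') := by
      rw [div_mul_eq_mul_div, div_le_iff₀ h0]
      have h3 : (t - t') ^ 2 ≤ (t - t') * ρ := by nlinarith
      have h4 := mul_le_mul_of_nonneg_left h3 (by linarith : (0 : ℝ) ≤ 1 - ρ)
      linarith
    have h3 : (1 - ρ) * (t - t') ≤ (1 - t) * (t - t') :=
      mul_le_mul_of_nonneg_right (by linarith) (by linarith)
    nlinarith [mul_nonneg ht' (by linarith : 0 ≤ 2 - t')]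
  rcases le_total (b k) (a k) with h | h
  · have := key (a k) (b k) (hb k) h hka
    linarith
  · have := key (b k) (a k) (ha k) h hkb
    have e4 : (b k - a k) ^ 2 = (a k - b k) ^ 2 := by ring
    rw [e4] at this
    linarith

/-- **the inequality for the slacks with one bounded slack** -/
theorem six_cut (K : Set (Fin 3 → ℝ)) (Q : Matrix (Fin 3) (Fin 3) ℝ)
    (hopt : ∀ B : Matrix (Fin 3) (Fin 3) ℝ, B.PosSemidef →
        (∀ x ∈ K, ∀ x' ∈ K, (x - x') ⬝ᵥ B *ᵥ (x - x') ≤ 1) → (B * Q⁻¹).trace ≤ 3)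
    (v : Fin 4 → Fin 3 → ℝ) (b : Fin 4 → ℝ) (hv : ∑ k, v k = 0) (hb : ∑ k, b k = 1)
    (hL : ∀ k, ∀ x ∈ K, pr (v k) x ≤ b k) (k : Fin 4) (ρ : ℝ) (h0 : 0 < ρ) (h1 : ρ ≤ 1)
    (hρ : ∀ x ∈ K, b k - pr (v k) x ≤ ρ) :
    ∑ j, v j ⬝ᵥ Q⁻¹ *ᵥ v j + 2 * (1 - ρ) / ρ * (v k ⬝ᵥ Q⁻¹ *ᵥ v k) ≤ 6 := by
  set c : Fin 4 → ℝ := fun j => 1 / 2 + if j = k then (1 - ρ) / ρ else 0 with hc
  have hc0 : ∀ j, 0 ≤ c j := by
    intro j
    have : 0 ≤ (1 - ρ) / ρ := div_nonneg (by linarith) h0.le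
    simp only [hc]
    split_ifs <;> linarith
  have hsumc : ∀ g : Fin 4 → ℝ, ∑ j, c j * g j = 1 / 2 * ∑ j, g j + (1 - ρ) / ρ * g k := by
    intro g
    simp only [hc, add_mul, Finset.sum_add_distrib, ← Finset.mul_sum, ite_mul, zero_mul,
      Finset.sum_ite_eq', Finset.mem_univ, if_true]
  have h := hopt (∑ j, c j • vecMulVec (v j) (v j)) (psd_B c hc0 v) (by
    intro x hx x' hx'
    rw [form_B, hsumc]
    have hsum0 : ∀ x : Fin 3 → ℝ, ∑ j, pr (v j) x = 0 := by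
      intro x
      have h2 : ∑ j, pr (v j) x = pr (∑ j, v j) x := by
        unfold pr
        rw [Finset.sum_comm]
        refine Finset.sum_congr rfl (fun i _ => ?_)
        rw [Finset.sum_apply, Finset.sum_mul]
      rw [h2, hv]
      unfold pr
      simp
    have h2 := cut_ineq (fun j => b j - pr (v j) x) (fun j => b j - pr (v j) x') k ρ h0 h1
      (fun j => sub_nonneg.2 (hL j x hx)) (fun j => sub_nonneg.2 (hL j x' hx'))
      (by rw [Finset.sum_sub_distrib, hb, hsum0, sub_zero])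
      (by rw [Finset.sum_sub_distrib, hb, hsum0, sub_zero]) (hρ x hx) (hρ x' hx')
    have h3 : ∀ j, (v j ⬝ᵥ (x - x')) ^ 2 = ((b j - pr (v j) x) - (b j - pr (v j) x')) ^ 2 := by
      intro j
      have h4 : v j ⬝ᵥ (x - x') = pr (v j) x - pr (v j) x' := by
        unfold pr
        simp only [dotProduct, Pi.sub_apply, mul_sub, Finset.sum_sub_distrib]
      rw [h4]
      ring
    simp only [h3]
    exact h2)
  rw [trace_B, hsumc] at h
  have e : 2 * (1 - ρ) / ρ * (v k ⬝ᵥ Q⁻¹ *ᵥ v k) = 2 * ((1 - ρ) / ρ * (v k ⬝ᵥ Q⁻¹ *ᵥ v k)) := by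
    ring
  rw [e]
  linarith

/-- **the inequality for the slacks** -/
theorem six (K : Set (Fin 3 → ℝ)) (Q : Matrix (Fin 3) (Fin 3) ℝ)
    (hopt : ∀ B : Matrix (Fin 3) (Fin 3) ℝ, B.PosSemidef →
        (∀ x ∈ K, ∀ x' ∈ K, (x - x') ⬝ᵥ B *ᵥ (x - x') ≤ 1) → (B * Q⁻¹).trace ≤ 3)
    (v : Fin 4 → Fin 3 → ℝ) (b : Fin 4 → ℝ) (hv : ∑ k, v k = 0) (hb : ∑ k, b k = 1)
    (hL : ∀ k, ∀ x ∈ K, pr (v k) x ≤ b k) :
    ∑ j, v j ⬝ᵥ Q⁻¹ *ᵥ v j ≤ 6 := by
  have h := six_cut K Q hopt v b hv hb hL 0 1 one_pos le_rfl (by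
    intro x hx
    have hsum0 : ∑ j, pr (v j) x = 0 := by
      have h2 : ∑ j, pr (v j) x = pr (∑ j, v j) x := by
        unfold pr
        rw [Finset.sum_comm]
        refine Finset.sum_congr rfl (fun i _ => ?_)
        rw [Finset.sum_apply, Finset.sum_mul]
      rw [h2, hv]
      unfold pr
      simp
    have h3 : ∑ j, (b j - pr (v j) x) = 1 := by rw [Finset.sum_sub_distrib, hb, hsum0, sub_zero]
    rw [← h3]
    exact Finset.single_le_sum (f := fun j => b j - pr (v j) x)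
      (fun j _ => sub_nonneg.2 (hL j x hx)) (Finset.mem_univ 0))
  simpa using h

end Pool.Agent.Helper1.UB
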